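import Pool.Agent.Q123.CV.Sum

/-!
A probability measure on the circle with vanishing Fourier coefficients is Lebesgue measure.
-/

set_option autoImplicit false

open MeasureTheory Filter Topology Set
open scoped ENNReal BoundedContinuousFunction

namespace Q123.CV

/-- approximation of continuous functions by trigonometric polynomials -/
lemma trig1 (f : C(T, ℂ)) {ε : ℝ} (hε : 0 < ε) :
    ∃ (M : Finset ℤ) (c : ℤ → ℂ), ∀ x, ‖f x - ∑ m ∈ M, c m * e m x‖ ≤ ε := by
  have hmem : f ∈ (Submodule.span ℂ (range (fourier (T := (1 : ℝ))))).topologicalClosure := by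
    rw [span_fourier_closure_eq_top]
    exact Submodule.mem_top
  rw [← SetLike.mem_coe, Submodule.topologicalClosure_coe] at hmem
  obtain ⟨g, hg, hfg⟩ := Metric.mem_closure_iff.1 hmem ε hε
  rw [SetLike.mem_coe] at hg
  obtain ⟨c, hc⟩ := (Finsupp.mem_span_range_iff_exists_finsupp).1 hg
  refine ⟨c.support, c, fun x => ?_⟩
  have e1 : ∑ m ∈ c.support, c m * e m x = g x := by
    rw [← hc, Finsupp.sum, ContinuousMap.coe_sum, Finset.sum_apply]
    rfl
  rw [e1]
  have h1 : ‖(f - g) x‖ ≤ ‖f - g‖ := ContinuousMap.norm_coe_le_norm _ _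
  rw [dist_eq_norm] at hfg
  exact h1.trans hfg.le

lemma int_cont (μ : Measure T) [IsFiniteMeasure μ] (f : C(T, ℂ)) : Integrable f μ :=
  int_bdd f.continuous.measurable (C := ‖f‖) fun x => f.norm_coe_le_norm x

theorem ext_fourier {μ ν : Measure T} [IsProbabilityMeasure μ] [IsProbabilityMeasure ν]
    (h : ∀ m : ℤ, ∫ x, e m x ∂μ = ∫ x, e m x ∂ν) : μ = ν := by
  have hC : ∀ f : C(T, ℂ), ∫ x, f x ∂μ = ∫ x, f x ∂ν := by
    intro f
    by_contra hne
    have hpos : 0 < ‖∫ x, f x ∂μ - ∫ x, f x ∂ν‖ := norm_pos_iff.2 (sub_ne_zero.2 hne)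
    set D := ‖∫ x, f x ∂μ - ∫ x, f x ∂ν‖ with hD
    obtain ⟨M, c, hc⟩ := trig1 f (ε := D / 4) (by positivity)
    have hi : ∀ (κ : Measure T) [IsProbabilityMeasure κ],
        Integrable (fun x => ∑ m ∈ M, c m * e m x) κ := fun κ _ =>
      integrable_finsetSum _ fun m _ => (e_int m κ).const_mul _
    have hmass : ∀ (κ : Measure T) [IsProbabilityMeasure κ],
        ‖∫ x, f x ∂κ - ∫ x, ∑ m ∈ M, c m * e m x ∂κ‖ ≤ D / 4 := by
      intro κ _
      rw [← integral_sub (int_cont κ f) (hi κ)]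
      have := norm_integral_le_of_norm_le_const (μ := κ) (Eventually.of_forall hc)
      simpa using this
    have h1 := hmass μ
    have h2 := hmass ν
    have h3 : ∫ x, ∑ m ∈ M, c m * e m x ∂μ = ∫ x, ∑ m ∈ M, c m * e m x ∂ν := by
      rw [integral_finsetSum _ (fun m _ => (e_int m μ).const_mul _),
        integral_finsetSum _ (fun m _ => (e_int m ν).const_mul _)]
      refine Finset.sum_congr rfl fun m _ => ?_
      rw [integral_const_mul, integral_const_mul, h m]
    have h4 : D ≤ D / 4 + D / 4 := by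
      have h5 : D = ‖(∫ x, f x ∂μ - ∫ x, ∑ m ∈ M, c m * e m x ∂μ) -
          (∫ x, f x ∂ν - ∫ x, ∑ m ∈ M, c m * e m x ∂ν)‖ := by
        rw [hD, h3]; congr 1; ring
      rw [h5]
      rw [h5] at h1 h2
      exact (norm_sub_le _ _).trans (add_le_add h1 h2)
    linarith
  refine ext_of_forall_integral_eq_of_IsFiniteMeasure fun f => ?_
  have h1 := hC ⟨fun x => ((f x : ℝ) : ℂ), Complex.continuous_ofReal.comp f.continuous⟩
  simp only [ContinuousMap.coe_mk] at h1
  rw [integral_complex_ofReal, integral_complex_ofReal] at h1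
  exact_mod_cast h1

lemma int_volume {m : ℤ} (hm : m ≠ 0) : ∫ x : T, e m x = 0 := by
  set y : T := ((1 / 2 / (m : ℝ) : ℝ) : T) with hy
  have h1 : ∀ x : T, e m (x + y) = - e m x := fun x =>
    fourier_add_half_inv_index hm one_pos x
  have h2 : ∫ x : T, e m (x + y) = ∫ x : T, e m x := integral_add_right_eq_self _ y
  simp_rw [h1] at h2
  rw [integral_neg] at h2
  exact self_eq_neg.1 h2.symm

lemma prob_volume : IsProbabilityMeasure (volume : Measure T) := ⟨UnitAddCircle.measure_univ⟩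

theorem eq_volume {μ : Measure T} [IsProbabilityMeasure μ]
    (h : ∀ m : ℤ, m ≠ 0 → ∫ x, e m x ∂μ = 0) : μ = volume := by
  have := prob_volume
  refine ext_fourier fun m => ?_
  rcases eq_or_ne m 0 with rfl | hm
  · simp_rw [e_zero]; simp
  · rw [h m hm, int_volume hm]

end Q123.CV
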