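import Mathlib

/-!
Measures on the circle that are ergodic for a semigroup of multiplications.
-/

set_option autoImplicit false

open MeasureTheory Filter Topology Set
open scoped ENNReal

namespace Q123.CV

abbrev T := UnitAddCircle

/-- `S` is closed under multiplication, `μ` is invariant and ergodic for the multiplications by
the elements of `S`. -/
structure Erg (S : Set ℕ) (μ : Measure T) : Prop where
  ne : S.Nonempty
  mul : ∀ m ∈ S, ∀ n ∈ S, m * n ∈ S
  inv : ∀ n ∈ S, MeasurePreserving (fun x : T => n • x) μ μ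
  erg : ∀ A : Set T, MeasurableSet A → (∀ n ∈ S, (fun x : T => n • x) ⁻¹' A = A) →
    μ A = 0 ∨ μ A = 1

lemma meas_smul (n : ℕ) : Measurable (fun x : T => n • x) := (continuous_nsmul n).measurable

/-- ergodicity for sets that are invariant up to null sets -/
lemma Erg.zero_one {S : Set ℕ} {μ : Measure T} (h : Erg S μ) {A : Set T} (hA : MeasurableSet A)
    (hinv : ∀ n ∈ S, ∀ᵐ x ∂μ, (n • x ∈ A ↔ x ∈ A)) : μ A = 0 ∨ μ A = 1 := by
  classical
  set B : Set T := {x | ∃ s ∈ S, ∀ t ∈ S, (s * t) • x ∈ A} with hB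
  have hBm : MeasurableSet B := by
    have e : B = ⋃ s ∈ S, ⋂ t ∈ S, (fun x : T => (s * t) • x) ⁻¹' A := by
      ext x; simp [hB]
    rw [e]
    exact MeasurableSet.biUnion (to_countable S) fun s _ =>
      MeasurableSet.biInter (to_countable S) fun t _ => meas_smul _ hA
  have hBinv : ∀ n ∈ S, (fun x : T => n • x) ⁻¹' B = B := by
    intro n hn
    ext x
    constructor
    · rintro ⟨s, hs, hx⟩
      refine ⟨s * n, h.mul _ hs _ hn, fun t ht => ?_⟩
      have := hx t ht
      simp only at this
      rw [← mul_smul] at this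
      rw [show s * n * t = s * t * n by ring]
      exact this
    · rintro ⟨s, hs, hx⟩
      refine ⟨s, hs, fun t ht => ?_⟩
      have := hx (t * n) (h.mul _ ht _ hn)
      simp only
      rw [← mul_smul, mul_assoc]
      exact this
  have hae : ∀ᵐ x ∂μ, (x ∈ B ↔ x ∈ A) := by
    have h1 : ∀ᵐ x ∂μ, ∀ n ∈ S, (n • x ∈ A ↔ x ∈ A) := (ae_ball_iff (to_countable S)).2 hinv
    filter_upwards [h1] with x hx
    constructor
    · rintro ⟨s, hs, h2⟩
      obtain ⟨t, ht⟩ := h.ne
      exact (hx _ (h.mul _ hs _ ht)).1 (h2 t ht)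
    · intro h2
      obtain ⟨s, hs⟩ := h.ne
      exact ⟨s, hs, fun t ht => (hx _ (h.mul _ hs _ ht)).2 h2⟩
  have e : μ B = μ A := measure_congr (by
    filter_upwards [hae] with x hx
    exact propext hx)
  rw [← e]
  exact h.erg B hBm hBinv

/-- invariant functions are constant -/
lemma Erg.const {S : Set ℕ} {μ : Measure T} [IsProbabilityMeasure μ] (h : Erg S μ) {g : T → ℝ≥0∞}
    (hg : Measurable g) (hinv : ∀ n ∈ S, ∀ᵐ x ∂μ, g (n • x) = g x) : ∃ c : ℝ≥0∞, ∀ᵐ x ∂μ, g x = c := by
  obtain ⟨c, hc⟩ := Filter.exists_eventuallyEq_const_of_forall_separating (l := ae μ) (f := g)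
    (p := MeasurableSet) (by
      intro U hU
      have h1 := h.zero_one (A := g ⁻¹' U) (hg hU) (by
        intro n hn
        filter_upwards [hinv n hn] with x hx
        rw [mem_preimage, mem_preimage, hx])
      rcases h1 with h1 | h1
      · right
        rw [ae_iff]
        have e : {a | ¬ g a ∉ U} = g ⁻¹' U := by
          ext a; simp only [not_not, mem_setOf_eq, mem_preimage]
        rw [e]
        exact h1
      · left
        have := (prob_compl_eq_zero_iff (hg hU)).2 h1
        rw [ae_iff]
        exact this)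
  exact ⟨c, hc⟩

/-- an invariant finite measure which is at most `μ` is a multiple of `μ` -/
lemma Erg.of_le {S : Set ℕ} {μ : Measure T} [IsProbabilityMeasure μ] (h : Erg S μ) {ν : Measure T}
    (hle : ν ≤ μ) (hinv : ∀ n ∈ S, MeasurePreserving (fun x : T => n • x) ν ν) :
    ν = ν univ • μ := by
  have : IsFiniteMeasure ν := isFiniteMeasure_of_le μ hle
  have hld : ν.HaveLebesgueDecomposition μ := Measure.haveLebesgueDecomposition_of_sigmaFinite ν μ
  obtain ⟨c, hc⟩ := h.const (Measure.measurable_rnDeriv ν μ) (fun n hn =>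
    (hinv n hn).rnDeriv_comp_aeEq (h.inv n hn))
  have h1 : ν = c • μ := by
    conv_lhs => rw [← Measure.withDensity_rnDeriv_eq ν μ (Measure.absolutelyContinuous_of_le hle)]
    rw [withDensity_congr_ae hc, withDensity_const]
  have h2 : ν univ = c := by
    rw [h1]; simp
  rw [h2]; exact h1

/-- the part of an invariant measure carried by a set on which `μ` lives -/
lemma Erg.split {S : Set ℕ} {μ : Measure T} [IsProbabilityMeasure μ] (h : Erg S μ) (ρ : Measure T)
    [IsFiniteMeasure ρ] (hinv : ∀ n ∈ S, MeasurePreserving (fun x : T => n • x) ρ ρ)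
    (hns : ¬ ρ ⟂ₘ μ) : ∃ (E : Set T) (c : ℝ≥0∞), MeasurableSet E ∧ c ≠ 0 ∧ c ≠ ∞ ∧
      ρ.restrict E = c • μ ∧ ∀ n ∈ S, ∀ᵐ x ∂ρ, (n • x ∈ E ↔ x ∈ E) := by
  have hld : ρ.HaveLebesgueDecomposition μ := Measure.haveLebesgueDecomposition_of_sigmaFinite ρ μ
  obtain ⟨c, hc⟩ := h.const (Measure.measurable_rnDeriv ρ μ) (fun n hn =>
    (hinv n hn).rnDeriv_comp_aeEq (h.inv n hn))
  obtain ⟨F, hF, hF1, hF2⟩ := Measure.mutuallySingular_singularPart ρ μ
  have hdec : ρ = ρ.singularPart μ + c • μ := by
    conv_lhs => rw [← Measure.singularPart_add_rnDeriv ρ μ]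
    rw [withDensity_congr_ae hc, withDensity_const]
  have hrE : ρ.restrict F = c • μ := by
    conv_lhs => rw [hdec]
    rw [Measure.restrict_add, Measure.restrict_eq_zero.2 hF1, zero_add, Measure.restrict_smul,
      Measure.restrict_eq_self_of_ae_mem]
    rw [ae_iff]
    exact hF2
  have hcm : c = ρ F := by
    have := congrArg (fun m : Measure T => m univ) hrE
    simp only [Measure.restrict_apply_univ, Measure.smul_apply, measure_univ, smul_eq_mul,
      mul_one] at this
    exact this.symm
  refine ⟨F, c, hF, ?_, ?_, hrE, ?_⟩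
  · intro h0
    apply hns
    rw [← Measure.rnDeriv_eq_zero]
    filter_upwards [hc] with x hx
    rw [hx, h0]; rfl
  · rw [hcm]; exact measure_ne_top _ _
  · intro n hn
    have h1 : (ρ.singularPart μ) ((fun x : T => n • x) ⁻¹' F) = 0 := by
      rw [((hinv n hn).singularPart (h.inv n hn)).measure_preimage hF.nullMeasurableSet]
      exact hF1
    have h2 : μ ((fun x : T => n • x) ⁻¹' Fᶜ) = 0 := by
      rw [(h.inv n hn).measure_preimage hF.compl.nullMeasurableSet]
      exact hF2
    rw [hdec, ae_iff, Measure.add_apply, Measure.smul_apply]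
    have h3 : (ρ.singularPart μ) {x | ¬ (n • x ∈ F ↔ x ∈ F)} = 0 := by
      refine measure_mono_null ?_ (measure_union_null h1 hF1)
      intro x hx
      by_contra hcon
      rw [mem_union, not_or] at hcon
      apply hx
      exact ⟨fun h4 => absurd h4 hcon.1, fun h4 => absurd h4 hcon.2⟩
    have h4 : μ {x | ¬ (n • x ∈ F ↔ x ∈ F)} = 0 := by
      refine measure_mono_null ?_ (measure_union_null h2 hF2)
      intro x hx
      by_contra hcon
      rw [mem_union, not_or] at hcon
      apply hx
      have h5 : n • x ∈ F := by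
        by_contra h6; exact hcon.1 h6
      have h6 : x ∈ F := by
        by_contra h6; exact hcon.2 h6
      exact ⟨fun _ => h6, fun _ => h5⟩
    rw [h3, h4]; simp

end Q123.CV
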