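import Pool.Agent.Q123.CV.Erg

/-!
Characters of the circle: small sums, a gap inequality and weak limits.
-/

set_option autoImplicit false

open MeasureTheory Filter Topology Set
open scoped ENNReal ComplexConjugate

namespace Q123.CV

/-- the characters of the circle -/
noncomputable def e (n : ℤ) (x : T) : ℂ := fourier n x

lemma e_cont (n : ℤ) : Continuous (e n) := (fourier (T := (1 : ℝ)) n).continuous

lemma e_meas (n : ℤ) : Measurable (e n) := (e_cont n).measurable

lemma e_norm (n : ℤ) (x : T) : ‖e n x‖ = 1 := by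
  unfold e
  rw [fourier_apply]
  exact Circle.norm_coe _

lemma e_add_arg (n : ℤ) (x y : T) : e n (x + y) = e n x * e n y := by
  unfold e
  rw [fourier_apply, fourier_apply, fourier_apply, smul_add, AddCircle.toCircle_add, Circle.coe_mul]

lemma e_add (m n : ℤ) (x : T) : e (m + n) x = e m x * e n x := by
  unfold e
  exact fourier_add

lemma e_zero (x : T) : e 0 x = 1 := by
  unfold e
  exact fourier_zero

lemma e_zero_arg (n : ℤ) : e n 0 = 1 := by
  unfold e
  exact fourier_eval_zero n

lemma e_neg (n : ℤ) (x : T) : e (-n) x = conj (e n x) := by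
  unfold e
  exact fourier_neg

lemma e_zsmul (n a : ℤ) (x : T) : e n (a • x) = e (a * n) x := by
  unfold e
  rw [fourier_apply, fourier_apply, smul_smul, mul_comm]

lemma e_nsmul (n : ℤ) (m : ℕ) (x : T) : e n (m • x) = e (m * n) x := by
  rw [← e_zsmul, natCast_zsmul]

lemma e_pow (n : ℤ) (m : ℕ) (x : T) : e (m * n) x = e n x ^ m := by
  induction m with
  | zero => simp [e_zero]
  | succ m ih =>
    rw [show ((m + 1 : ℕ) : ℤ) * n = (m : ℤ) * n + n by push_cast; ring, e_add, ih, pow_succ]

lemma e_sum {ι : Type*} (s : Finset ι) (n : ℤ) (f : ι → T) :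
    e n (∑ i ∈ s, f i) = ∏ i ∈ s, e n (f i) := by
  classical
  induction s using Finset.induction_on with
  | empty => simp [e_zero_arg]
  | insert i s hi ih => rw [Finset.sum_insert hi, Finset.prod_insert hi, e_add_arg, ih]

lemma e_eq_one {n : ℤ} {x : T} (h : e n x = 1) : n • x = 0 := by
  unfold e at h
  rw [fourier_apply] at h
  have h1 : AddCircle.toCircle (n • x) = AddCircle.toCircle (0 : T) := by
    rw [AddCircle.toCircle_zero]
    exact Circle.coe_inj.1 (by rw [h]; rfl)
  exact AddCircle.injective_toCircle one_ne_zero h1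

lemma e_int (n : ℤ) (μ : Measure T) [IsFiniteMeasure μ] : Integrable (e n) μ :=
  Integrable.of_bound (e_meas n).aestronglyMeasurable 1 (Eventually.of_forall fun x => (e_norm n x).le)

/-- `‖1 - z‖²` on the unit circle -/
lemma norm_one_sub_sq {z : ℂ} (hz : ‖z‖ = 1) : ‖1 - z‖ ^ 2 = 2 * (1 - z.re) := by
  have h1 : ‖z‖ ^ 2 = z.re ^ 2 + z.im ^ 2 := by
    rw [← Complex.normSq_eq_norm_sq, Complex.normSq_apply]; ring
  rw [← Complex.normSq_eq_norm_sq, Complex.normSq_apply]
  simp only [Complex.sub_re, Complex.one_re, Complex.sub_im, Complex.one_im]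
  rw [hz] at h1
  nlinarith

lemma pow_close {z : ℂ} (hz : ‖z‖ = 1) (p : ℕ) : ‖1 - z ^ p‖ ≤ p * ‖1 - z‖ := by
  induction p with
  | zero => simp
  | succ p ih =>
    have h1 : 1 - z ^ (p + 1) = (1 - z) + z * (1 - z ^ p) := by ring
    rw [h1]
    refine (norm_add_le _ _).trans ?_
    rw [norm_mul, hz, one_mul]
    push_cast
    linarith

lemma pow_far {z : ℂ} (hz : ‖z‖ = 1) (p : ℕ) :
    ‖(1 - z ^ p) - p * (1 - z)‖ ≤ (p : ℝ) * (p - 1) / 2 * ‖1 - z‖ ^ 2 := by
  induction p with
  | zero => simp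
  | succ p ih =>
    have h1 : (1 - z ^ (p + 1)) - ((p + 1 : ℕ) : ℂ) * (1 - z) =
        ((1 - z ^ p) - p * (1 - z)) - (1 - z) * (1 - z ^ p) := by
      push_cast; ring
    rw [h1]
    refine (norm_sub_le _ _).trans ?_
    rw [norm_mul]
    have h2 := mul_le_mul_of_nonneg_left (pow_close hz p) (norm_nonneg (1 - z))
    push_cast
    nlinarith

/-- the mean distance of a character to one -/
noncomputable def dist1 (μ : Measure T) (n : ℤ) : ℝ := ∫ x, ‖1 - e n x‖ ∂μ

/-- the mean square distance of a character to one -/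
noncomputable def dist2 (μ : Measure T) (n : ℤ) : ℝ := ∫ x, ‖1 - e n x‖ ^ 2 ∂μ

lemma int_bdd {X : Type*} [MeasurableSpace X] {μ : Measure X} [IsFiniteMeasure μ] {E : Type*}
    [NormedAddCommGroup E] [MeasurableSpace E] [BorelSpace E] [SecondCountableTopology E]
    {f : X → E} (hf : Measurable f) {C : ℝ} (hC : ∀ x, ‖f x‖ ≤ C) : Integrable f μ :=
  Integrable.of_bound hf.aestronglyMeasurable C (Eventually.of_forall hC)

lemma sub_meas (n : ℤ) : Measurable (fun x : T => ‖1 - e n x‖) :=
  (measurable_const.sub (e_meas n)).norm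

lemma sub_le_two (n : ℤ) (x : T) : ‖1 - e n x‖ ≤ 2 := by
  refine (norm_sub_le _ _).trans ?_
  rw [e_norm, norm_one]; norm_num

lemma dist1_nonneg (μ : Measure T) (n : ℤ) : 0 ≤ dist1 μ n :=
  integral_nonneg fun _ => norm_nonneg _

lemma dist2_nonneg (μ : Measure T) (n : ℤ) : 0 ≤ dist2 μ n :=
  integral_nonneg fun x => by positivity

lemma int1 (μ : Measure T) [IsFiniteMeasure μ] (n : ℤ) : Integrable (fun x : T => ‖1 - e n x‖) μ :=
  int_bdd (sub_meas n) (C := 2) (fun x => by rw [norm_norm]; exact sub_le_two n x)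

lemma int2 (μ : Measure T) [IsFiniteMeasure μ] (n : ℤ) :
    Integrable (fun x : T => ‖1 - e n x‖ ^ 2) μ :=
  int_bdd ((sub_meas n).pow_const 2) (C := 4) (fun x => by
    rw [Real.norm_of_nonneg (by positivity)]
    have h1 := sub_le_two n x
    have h2 := norm_nonneg (1 - e n x)
    nlinarith)

lemma re_int {X : Type*} [MeasurableSpace X] {μ : Measure X} {f : X → ℂ} (hf : Integrable f μ) :
    (∫ x, f x ∂μ).re = ∫ x, (f x).re ∂μ :=
  (Complex.reCLM.integral_comp_comm hf).symm

lemma dist2_eq (μ : Measure T) [IsProbabilityMeasure μ] (n : ℤ) :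
    dist2 μ n = 2 * (1 - (∫ x, e n x ∂μ).re) := by
  unfold dist2
  simp_rw [norm_one_sub_sq (e_norm n _)]
  have h1 : Integrable (fun x => (e n x).re) μ := (e_int n μ).re
  rw [integral_const_mul, integral_sub (integrable_const _) h1, integral_const, re_int (e_int n μ)]
  simp

lemma map_int {μ : Measure T} {p : ℕ} (hinv : MeasurePreserving (fun x : T => p • x) μ μ)
    {E : Type*} [NormedAddCommGroup E] [NormedSpace ℝ E] {f : T → E}
    (hf : StronglyMeasurable f) : ∫ x, f (p • x) ∂μ = ∫ x, f x ∂μ := by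
  conv_rhs => rw [← hinv.map_eq]
  rw [integral_map hinv.measurable.aemeasurable hf.aestronglyMeasurable]

/-- the gap inequality: for an invariant measure the mean distance of a character to one is at most
a constant times the mean square distance -/
lemma gap {μ : Measure T} [IsProbabilityMeasure μ] {p : ℕ} (hp : 2 ≤ p)
    (hinv : MeasurePreserving (fun x : T => p • x) μ μ) (n : ℤ) :
    dist1 μ n ≤ p / 2 * dist2 μ n := by
  have hp' : (2 : ℝ) ≤ p := by exact_mod_cast hp
  have h1 : ∫ x, ‖1 - e n (p • x)‖ ∂μ = dist1 μ n := by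
    unfold dist1
    exact map_int hinv (f := fun x => ‖1 - e n x‖) (sub_meas n).stronglyMeasurable
  have h2 : ∀ x : T, p * ‖1 - e n x‖ - (p : ℝ) * (p - 1) / 2 * ‖1 - e n x‖ ^ 2 ≤
      ‖1 - e n (p • x)‖ := by
    intro x
    rw [e_nsmul, e_pow]
    have h3 := pow_far (e_norm n x) p
    have h4 : ‖(p : ℂ) * (1 - e n x)‖ ≤ ‖1 - e n x ^ p‖ + ‖(1 - e n x ^ p) - p * (1 - e n x)‖ := by
      have := norm_sub_le (1 - e n x ^ p) ((1 - e n x ^ p) - p * (1 - e n x))
      rwa [sub_sub_cancel] at this
    rw [norm_mul, Complex.norm_natCast] at h4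
    linarith
  have h3 : p * dist1 μ n - (p : ℝ) * (p - 1) / 2 * dist2 μ n ≤ dist1 μ n := by
    refine le_trans ?_ (le_of_eq h1)
    unfold dist1 dist2
    rw [← integral_const_mul, ← integral_const_mul, ← integral_sub ((int1 μ n).const_mul _)
      ((int2 μ n).const_mul _)]
    refine integral_mono (((int1 μ n).const_mul _).sub ((int2 μ n).const_mul _)) ?_ h2
    refine int_bdd ?_ (C := 2) (fun x => ?_)
    · exact (sub_meas n).comp (meas_smul p)
    · rw [norm_norm]; exact sub_le_two n _
  have h4 : (p - 1) * dist1 μ n ≤ (p - 1) * (p / 2 * dist2 μ n) := by linarith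
  exact le_of_mul_le_mul_left h4 (by linarith)

open scoped InnerProductSpace in
/-- weak limits of characters along an ultrafilter -/
lemma weak_limit (μ : Measure T) [IsProbabilityMeasure μ] (U : Ultrafilter ℕ) (b : ℕ → ℤ) :
    ∃ θ : T → ℂ, Measurable θ ∧ (∀ x, ‖θ x‖ ≤ 1) ∧ ∀ (h : T → ℂ) (C : ℝ), Measurable h →
      (∀ x, ‖h x‖ ≤ C) →
      Tendsto (fun m => ∫ x, e (b m) x * h x ∂μ) U (𝓝 (∫ x, θ x * h x ∂μ)) := by
  classical
  have hmem : ∀ (g : T → ℂ) (C : ℝ), Measurable g → (∀ x, ‖g x‖ ≤ C) → MemLp g 2 μ :=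
    fun g C hg hC => MemLp.of_bound hg.aestronglyMeasurable C (Eventually.of_forall hC)
  have hcm : ∀ m, Measurable (fun x => conj (e (b m) x)) := fun m =>
    Complex.continuous_conj.measurable.comp (e_meas (b m))
  have hcb : ∀ m x, ‖conj (e (b m) x)‖ ≤ 1 := fun m x => by
    rw [RCLike.norm_conj]; exact (e_norm _ _).le
  set f : ℕ → Lp ℂ 2 μ := fun m => (hmem _ 1 (hcm m) (hcb m)).toLp _ with hf
  have hfn : ∀ m, ‖f m‖ ≤ 1 := by
    intro m
    have h1 := Lp.norm_le_of_ae_bound (f := f m) (C := 1) zero_le_one (by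
      filter_upwards [(hmem _ 1 (hcm m) (hcb m)).coeFn_toLp] with x hx
      rw [hx]; exact hcb m x)
    have h2 : measureUnivNNReal μ = 1 := by simp [measureUnivNNReal]
    rw [h2] at h1
    simpa using h1
  set g : ℕ → WeakDual ℂ (Lp ℂ 2 μ) := fun m => StrongDual.toWeakDual (innerSL ℂ (f m)) with hg
  obtain ⟨φ, -, hφ⟩ := (WeakDual.isCompact_closedBall (𝕜 := ℂ) (E := Lp ℂ 2 μ) 0 1).ultrafilter_le_nhds'
    (U.map g) (by
      rw [Ultrafilter.mem_map]
      refine Filter.univ_mem' fun m => ?_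
      rw [mem_preimage, mem_preimage, mem_closedBall_zero_iff]
      rw [hg]
      simpa using hfn m)
  have hφ' : Tendsto g U (𝓝 φ) := by
    rwa [Ultrafilter.coe_map] at hφ
  have hlim : ∀ h' : Lp ℂ 2 μ, Tendsto (fun m => ⟪f m, h'⟫_ℂ) U (𝓝 (φ h')) := fun h' =>
    ((WeakDual.eval_continuous h').tendsto φ).comp hφ'
  set θ' := (InnerProductSpace.toDual ℂ (Lp ℂ 2 μ)).symm (WeakDual.toStrongDual φ) with hθ'
  have hθi : ∀ h' : Lp ℂ 2 μ, ⟪θ', h'⟫_ℂ = φ h' := fun h' => InnerProductSpace.toDual_symm_apply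
  set θ0 : T → ℂ := fun x => conj (θ' x) with hθ0
  have hθ0m : Measurable θ0 :=
    Complex.continuous_conj.measurable.comp (Lp.stronglyMeasurable θ').measurable
  have hθ0i : Integrable θ0 μ := by
    have h1 : MemLp θ' 2 μ := Lp.memLp θ'
    have h2 : Integrable θ' μ := h1.integrable (by norm_num)
    refine h2.mono hθ0m.aestronglyMeasurable (Eventually.of_forall fun x => ?_)
    rw [hθ0]
    exact (RCLike.norm_conj _).le
  have hmain : ∀ (h : T → ℂ) (C : ℝ), Measurable h → (∀ x, ‖h x‖ ≤ C) →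
      Tendsto (fun m => ∫ x, e (b m) x * h x ∂μ) U (𝓝 (∫ x, θ0 x * h x ∂μ)) := by
    intro h C hh hC
    have h1 := hlim ((hmem h C hh hC).toLp h)
    rw [← hθi, L2.inner_def] at h1
    have h2 : ∫ x, ⟪θ' x, ((hmem h C hh hC).toLp h) x⟫_ℂ ∂μ = ∫ x, θ0 x * h x ∂μ := by
      refine integral_congr_ae ?_
      filter_upwards [(hmem h C hh hC).coeFn_toLp] with x hx
      rw [hx, RCLike.inner_apply, mul_comm]
    rw [h2] at h1
    refine h1.congr fun m => ?_
    rw [L2.inner_def]
    refine integral_congr_ae ?_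
    filter_upwards [(hmem h C hh hC).coeFn_toLp, (hmem _ 1 (hcm m) (hcb m)).coeFn_toLp] with x hx hx2
    rw [hx, RCLike.inner_apply]
    rw [show (f m) x = conj (e (b m) x) from hx2, Complex.conj_conj, mul_comm]
  -- the bound
  have hbound : ∀ᵐ x ∂μ, ‖θ0 x‖ ≤ 1 := by
    set A : Set T := {x | 1 < ‖θ0 x‖} with hA
    have hAm : MeasurableSet A := measurableSet_lt measurable_const hθ0m.norm
    set h : T → ℂ := A.indicator (fun x => conj (θ0 x) / ‖θ0 x‖) with hh
    have hhm : Measurable h := by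
      refine Measurable.indicator ?_ hAm
      exact (Complex.continuous_conj.measurable.comp hθ0m).div
        (Complex.continuous_ofReal.measurable.comp hθ0m.norm)
    have hh1 : ∀ x, ‖h x‖ ≤ A.indicator (fun _ => (1 : ℝ)) x := by
      intro x
      rw [hh]
      by_cases hx : x ∈ A
      · rw [indicator_of_mem hx, indicator_of_mem hx, norm_div, RCLike.norm_conj, Complex.norm_real,
          norm_norm]
        exact div_self_le_one _
      · rw [indicator_of_notMem hx, indicator_of_notMem hx, norm_zero]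
    have hh2 : ∀ x, ‖h x‖ ≤ 1 := fun x => (hh1 x).trans (indicator_le_self' (by simp) x)
    have h3 := hmain h 1 hhm hh2
    have h4 : ∫ x, θ0 x * h x ∂μ = ((∫ x in A, ‖θ0 x‖ ∂μ : ℝ) : ℂ) := by
      rw [← integral_indicator hAm, ← integral_complex_ofReal]
      refine integral_congr_ae (Eventually.of_forall fun x => ?_)
      simp only [hh]
      by_cases hx : x ∈ A
      · rw [indicator_of_mem hx, indicator_of_mem hx]
        have h5 : (‖θ0 x‖ : ℂ) ≠ 0 := by
          have : (1 : ℝ) < ‖θ0 x‖ := hx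
          exact_mod_cast (by linarith : ‖θ0 x‖ ≠ 0)
        field_simp
        rw [Complex.mul_conj, Complex.normSq_eq_norm_sq]
        push_cast
        rfl
      · rw [indicator_of_notMem hx, indicator_of_notMem hx]
        simp
    rw [h4] at h3
    have h5 : ∫ x in A, ‖θ0 x‖ ∂μ ≤ μ.real A := by
      have h6 : ∀ m, ‖∫ x, e (b m) x * h x ∂μ‖ ≤ μ.real A := by
        intro m
        refine (norm_integral_le_integral_norm _).trans ?_
        rw [← integral_indicator_one hAm]
        refine integral_mono (int_bdd (((e_meas _).mul hhm).norm) (C := 1) (fun x => ?_))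
          ((integrable_const (1 : ℝ)).indicator hAm) fun x => ?_
        · rw [norm_norm, norm_mul, e_norm, one_mul]; exact hh2 x
        · simp only [norm_mul, e_norm, one_mul]
          exact hh1 x
      have h7 := le_of_tendsto h3.norm (Eventually.of_forall h6)
      rw [Complex.norm_real, Real.norm_of_nonneg (integral_nonneg fun x => norm_nonneg _)] at h7
      exact h7
    have h6 : ∫ x in A, (‖θ0 x‖ - 1) ∂μ ≤ 0 := by
      rw [integral_sub hθ0i.norm.integrableOn (integrable_const _)]
      simp only [integral_const, smul_eq_mul, mul_one, measureReal_restrict_apply_univ]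
      linarith
    have h7 : 0 ≤ᵐ[μ.restrict A] fun x => ‖θ0 x‖ - 1 := by
      filter_upwards [ae_restrict_mem hAm] with x hx
      have : (1 : ℝ) < ‖θ0 x‖ := hx
      simp only [Pi.zero_apply]
      linarith
    have h8 := (integral_eq_zero_iff_of_nonneg_ae h7
      ((hθ0i.norm.integrableOn).sub (integrable_const _))).1
      (le_antisymm h6 (integral_nonneg_of_ae h7))
    have h9 : ∀ᵐ x ∂(μ.restrict A), False := by
      filter_upwards [h8, ae_restrict_mem hAm] with x hx hx2
      have h10 : (1 : ℝ) < ‖θ0 x‖ := hx2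
      simp only [Pi.zero_apply] at hx
      linarith
    rw [ae_restrict_iff' hAm] at h9
    filter_upwards [h9] with x hx
    by_contra hcon
    exact hx (not_le.1 hcon)
  refine ⟨fun x => if ‖θ0 x‖ ≤ 1 then θ0 x else 0, ?_, ?_, ?_⟩
  · exact Measurable.ite (measurableSet_le hθ0m.norm measurable_const) hθ0m measurable_const
  · intro x
    by_cases hx : ‖θ0 x‖ ≤ 1
    · simp only [hx, if_true]
    · simp only [hx, if_false, norm_zero, zero_le_one]
  · intro h C hh hC
    have h1 := hmain h C hh hC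
    have h2 : ∫ x, (if ‖θ0 x‖ ≤ 1 then θ0 x else 0) * h x ∂μ = ∫ x, θ0 x * h x ∂μ := by
      refine integral_congr_ae ?_
      filter_upwards [hbound] with x hx
      simp only [hx, if_true]
    rw [h2]
    exact h1

end Q123.CV
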