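import Pool.Agent.Q123.CV.Rig

/-!
The joining given by a linear form whose law is not singular.
-/

set_option autoImplicit false

open MeasureTheory Filter Topology Set
open scoped ENNReal ComplexConjugate

namespace Q123.CV

variable {k : ℕ}

/-- a linear form with integer coefficients -/
noncomputable def lin (a : Fin k → ℤ) (x : Fin k → T) : T := ∑ i, a i • x i

lemma lin_cont (a : Fin k → ℤ) : Continuous (lin a) :=
  continuous_finsetSum _ fun i _ => (continuous_apply i).zsmul (a i)

lemma lin_meas (a : Fin k → ℤ) : Measurable (lin a) := (lin_cont a).measurable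

lemma lin_smul (a : Fin k → ℤ) (n : ℕ) (x : Fin k → T) :
    lin a (fun i => n • x i) = n • lin a x := by
  unfold lin
  rw [Finset.smul_sum]
  exact Finset.sum_congr rfl fun i _ => by rw [smul_comm]

lemma e_lin (a : Fin k → ℤ) (n : ℤ) (x : Fin k → T) : e n (lin a x) = ∏ i, e (a i * n) (x i) := by
  unfold lin
  rw [e_sum]
  exact Finset.prod_congr rfl fun i _ => e_zsmul _ _ _

/-- the joining: a measure `lam ≤ μ^k` all of whose marginals, and the law of the linear form, are
`c μ` -/
theorem Erg.joining {S : Set ℕ} {μ : Measure T} [IsProbabilityMeasure μ] (h : Erg S μ)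
    (a : Fin k → ℤ) (hns : ¬ ((Measure.pi fun _ : Fin k => μ).map (lin a)) ⟂ₘ μ) :
    ∃ (E : Set T) (c : ℝ≥0∞), MeasurableSet E ∧ c ≠ 0 ∧ c ≠ ∞ ∧
      ((Measure.pi fun _ : Fin k => μ).restrict (lin a ⁻¹' E)).map (lin a) = c • μ ∧
      ∀ i, ((Measure.pi fun _ : Fin k => μ).restrict (lin a ⁻¹' E)).map (fun x => x i) = c • μ := by
  set P := Measure.pi (fun _ : Fin k => μ) with hP
  have hD : ∀ n ∈ S, MeasurePreserving (fun (x : Fin k → T) i => n • x i) P P := fun n hn =>
    measurePreserving_pi _ _ fun _ => h.inv n hn
  have hρ : ∀ n ∈ S, MeasurePreserving (fun x : T => n • x) (P.map (lin a)) (P.map (lin a)) := by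
    intro n hn
    refine ⟨meas_smul n, ?_⟩
    rw [Measure.map_map (meas_smul n) (lin_meas a)]
    conv_rhs => rw [← (hD n hn).map_eq, Measure.map_map (lin_meas a) (hD n hn).measurable]
    congr 1
    ext x
    exact (lin_smul a n x).symm
  have hpm : IsProbabilityMeasure (P.map (lin a)) :=
    Measure.isProbabilityMeasure_map (lin_meas a).aemeasurable
  obtain ⟨E, c, hE, hc0, hc1, hres, hEinv⟩ := h.split (P.map (lin a)) hρ hns
  refine ⟨E, c, hE, hc0, hc1, ?_, fun i => ?_⟩
  · rw [← Measure.restrict_map (lin_meas a) hE, hres]
  · set lam := P.restrict (lin a ⁻¹' E) with hlam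
    have hinv : ∀ n ∈ S, MeasurePreserving (fun x : T => n • x) (lam.map (fun x => x i))
        (lam.map (fun x => x i)) := by
      intro n hn
      have h1 : MeasurePreserving (fun (x : Fin k → T) i => n • x i) lam lam := by
        have h2 := (hD n hn).restrict_preimage (s := lin a ⁻¹' E) (lin_meas a hE)
        have h3 : P.restrict ((fun (x : Fin k → T) i => n • x i) ⁻¹' (lin a ⁻¹' E)) = lam := by
          refine Measure.restrict_congr_set ?_
          have h4 := hEinv n hn
          have h5 := ae_of_ae_map (lin_meas a).aemeasurable h4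
          filter_upwards [h5] with x hx
          refine propext ?_
          change lin a (fun i => n • x i) ∈ E ↔ lin a x ∈ E
          rw [lin_smul]
          exact hx
        rwa [h3] at h2
      refine ⟨meas_smul n, ?_⟩
      rw [Measure.map_map (meas_smul n) (measurable_pi_apply i)]
      conv_rhs => rw [← h1.map_eq, Measure.map_map (measurable_pi_apply i) h1.measurable]
      rfl
    have hle : lam.map (fun x => x i) ≤ μ := by
      have h1 : P.map (fun x => x i) = μ := (measurePreserving_eval (fun _ : Fin k => μ) i).map_eq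
      conv_rhs => rw [← h1]
      exact Measure.map_mono Measure.restrict_le_self (measurable_pi_apply i)
    rw [h.of_le hle hinv]
    congr 1
    rw [Measure.map_apply (measurable_pi_apply i) MeasurableSet.univ, preimage_univ, hlam,
      Measure.restrict_apply_univ, ← Measure.map_apply (lin_meas a) hE,
      ← Measure.restrict_apply_univ, hres]
    simp

end Q123.CV
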