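import Pool.Agent.Q123.CV.Strong

/-!
Linear forms in independent copies of an ergodic measure.
-/

set_option autoImplicit false

open MeasureTheory Filter Topology Set
open scoped ENNReal ComplexConjugate

namespace Q123.CV

variable {k : ℕ}

lemma int_pow {μ : Measure T} {p : ℕ} (hinv : MeasurePreserving (fun x : T => p • x) μ μ)
    (N : ℤ) (m : ℕ) : ∫ x, e ((p : ℤ) ^ m * N) x ∂μ = ∫ x, e N x ∂μ := by
  induction m with
  | zero => simp
  | succ m ih =>
    rw [← ih, ← map_int hinv (e_meas ((p : ℤ) ^ m * N)).stronglyMeasurable]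
    congr 1
    ext x
    rw [e_nsmul]
    congr 1
    ring

/-- the main inequality for the joining -/
lemma key {μ : Measure T} [IsProbabilityMeasure μ] (a : Fin k → ℤ) (E : Set T)
    (hE : MeasurableSet E) (c : ℝ≥0∞)
    (hlin : ((Measure.pi fun _ : Fin k => μ).restrict (lin a ⁻¹' E)).map (lin a) = c • μ)
    (U : Ultrafilter ℕ) (b : ℕ → ℤ) (ψ : T → ℂ) (θ : Fin k → T → ℂ) (hψ : WL μ U b ψ)
    (hθ : ∀ i, WL μ U (fun m => a i * b m) (θ i)) :
    c.toReal * ∫ x, ‖ψ x‖ ^ 2 ∂μ ≤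
      ∫ x in lin a ⁻¹' E, (∏ i, ‖θ i (x i)‖) * ‖ψ (lin a x)‖ ∂(Measure.pi fun _ : Fin k => μ) := by
  classical
  set P := Measure.pi (fun _ : Fin k => μ) with hP
  set lam := P.restrict (lin a ⁻¹' E) with hlam
  have hEm : MeasurableSet (lin a ⁻¹' E) := lin_meas a hE
  have hcm : Measurable fun x => conj (ψ x) := Complex.continuous_conj.measurable.comp hψ.1
  have hcb : ∀ x, ‖conj (ψ x)‖ ≤ 1 := fun x => by rw [RCLike.norm_conj]; exact hψ.2.1 x
  have hcl : Measurable fun x : Fin k → T => conj (ψ (lin a x)) := hcm.comp (lin_meas a)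
  set H : (Fin k → T) → ℂ := (lin a ⁻¹' E).indicator fun x => conj (ψ (lin a x)) with hH
  have hHi : Integrable H P :=
    (int_bdd hcl (C := 1) fun x => hcb _).indicator hEm
  have h1 := tensor μ U (fun i m => a i * b m) θ (fun i => (hθ i).1) (fun i => (hθ i).2.1)
    (fun i n => (hθ i).2.2 (e n) 1 (e_meas n) (fun x => (e_norm n x).le)) H hHi
  have e1 : ∀ G : (Fin k → T) → ℂ, ∫ x, G x * H x ∂P = ∫ x, G x * conj (ψ (lin a x)) ∂lam := by
    intro G
    rw [hlam, ← integral_indicator hEm]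
    congr 1
    ext x
    by_cases hx : x ∈ lin a ⁻¹' E
    · rw [hH, indicator_of_mem hx, indicator_of_mem hx]
    · rw [hH, indicator_of_notMem hx, indicator_of_notMem hx, mul_zero]
  have e2 : ∀ m, ∫ x, (∏ i, e (a i * b m) (x i)) * H x ∂P =
      c.toReal • ∫ y, e (b m) y * conj (ψ y) ∂μ := by
    intro m
    rw [e1]
    simp_rw [← e_lin]
    exact int_coord (lin_meas a) hlin (F := fun y => e (b m) y * conj (ψ y))
      ((e_meas _).mul hcm).stronglyMeasurable
  have h2 := (hψ.2.2 _ 1 hcm hcb).const_smul c.toReal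
  have h3 : ∫ x, (∏ i, θ i (x i)) * H x ∂P = c.toReal • ∫ y, ψ y * conj (ψ y) ∂μ := by
    refine tendsto_nhds_unique h1 ?_
    refine h2.congr fun m => ?_
    exact (e2 m).symm
  rw [e1, sq_int] at h3
  have h4 := congrArg norm h3
  rw [norm_smul, Complex.norm_real, Real.norm_of_nonneg ENNReal.toReal_nonneg,
    Real.norm_of_nonneg (integral_nonneg fun x => by positivity)] at h4
  rw [← h4]
  refine (norm_integral_le_integral_norm _).trans (le_of_eq ?_)
  congr 1
  ext x
  rw [norm_mul, norm_prod, RCLike.norm_conj]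

theorem main {S : Set ℕ} {μ : Measure T} [IsProbabilityMeasure μ] (h : Erg S μ) (h0 : 0 ∉ S)
    {p : ℕ} (hp : 2 ≤ p) (hpS : p ∈ S) (a : Fin k → ℤ) (i0 j : Fin k) (hj : j ≠ i0)
    (haj : a j ≠ 0) (hi0 : |a i0| = 1)
    (hns : ¬ ((Measure.pi fun _ : Fin k => μ).map (lin a)) ⟂ₘ μ) :
    μ = volume ∨ ∃ F : Set T, F.Finite ∧ μ Fᶜ = 0 := by
  classical
  by_cases hall : ∀ m : ℤ, m ≠ 0 → ∫ x, e m x ∂μ = 0
  · exact Or.inl (eq_volume hall)
  right
  push Not at hall
  obtain ⟨N, hN, hN1⟩ := hall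
  obtain ⟨E, c, hE, hc0, hc1, hlin, hco⟩ := h.joining a hns
  have hcr : 0 < c.toReal := ENNReal.toReal_pos hc0 hc1
  set P := Measure.pi (fun _ : Fin k => μ) with hP
  set lam := P.restrict (lin a ⁻¹' E) with hlam
  have hpinv := h.inv p hpS
  set b : ℕ → ℤ := fun m => (p : ℤ) ^ m * N with hb
  obtain ⟨ψ, hψ⟩ := WL.exists μ (hyperfilter ℕ) b
  choose θ hθ using fun i => WL.exists μ (hyperfilter ℕ) (fun m => a i * b m)
  have hinj : Function.Injective fun m => a j * b m := by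
    intro m n hmn
    have h1 : (p : ℤ) ^ m = (p : ℤ) ^ n := by
      have h2 := mul_left_cancel₀ haj hmn
      exact mul_right_cancel₀ hN h2
    have h2 : p ^ m = p ^ n := by exact_mod_cast h1
    exact Nat.pow_right_injective hp h2
  -- masses
  have hmass : ∫ x, ‖θ i0 x‖ ^ 2 ∂μ = ∫ x, ‖ψ x‖ ^ 2 ∂μ := by
    have h1 := hθ i0
    rcases (abs_eq zero_le_one).1 hi0 with h2 | h2
    · simp only [h2, one_mul] at h1
      exact h1.norm_eq hψ
    · simp only [h2, neg_one_mul] at h1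
      rw [h1.norm_eq hψ.conj]
      congr 1
      ext x
      rw [RCLike.norm_conj]
  have hψ0 : 0 < ∫ x, ‖ψ x‖ ^ 2 ∂μ := by
    refine lt_of_le_of_ne (integral_nonneg fun x => by positivity) fun h1 => hN1 ?_
    have h2 := (integral_eq_zero_iff_of_nonneg (fun x => by positivity)
      (int_bdd (hψ.1.norm.pow_const 2) (C := 1) (fun x => by
        rw [Real.norm_of_nonneg (by positivity)]
        exact pow_le_one₀ (norm_nonneg _) (hψ.2.1 x)))).1 h1.symm
    have h3 := hψ.2.2 (fun _ => 1) 1 measurable_const (fun _ => by simp)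
    have h4 : ∫ x, ψ x * (1 : ℂ) ∂μ = 0 := by
      refine integral_eq_zero_of_ae ?_
      filter_upwards [h2] with x hx
      have h5 : ‖ψ x‖ ^ 2 = 0 := hx
      have h6 : ψ x = 0 := by
        rw [← norm_eq_zero]
        exact pow_eq_zero_iff (two_ne_zero) |>.1 h5
      rw [h6]; simp
    rw [h4] at h3
    have h5 : ∀ m, ∫ x, e (b m) x * (1 : ℂ) ∂μ = ∫ x, e N x ∂μ := by
      intro m
      simp_rw [mul_one]
      exact int_pow hpinv N m
    simp_rw [h5] at h3
    exact tendsto_nhds_unique tendsto_const_nhds h3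
  -- the three functions
  set u : (Fin k → T) → ℝ := fun x => ‖θ i0 (x i0)‖ with hu
  set v : (Fin k → T) → ℝ := fun x => ‖θ j (x j)‖ with hv
  set w : (Fin k → T) → ℝ := fun x => ‖ψ (lin a x)‖ with hw
  have hum : Measurable u := ((hθ i0).1.comp (measurable_pi_apply i0)).norm
  have hvm : Measurable v := ((hθ j).1.comp (measurable_pi_apply j)).norm
  have hwm : Measurable w := (hψ.1.comp (lin_meas a)).norm
  have hu0 : ∀ x, 0 ≤ u x := fun x => norm_nonneg _
  have hv0 : ∀ x, 0 ≤ v x := fun x => norm_nonneg _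
  have hw0 : ∀ x, 0 ≤ w x := fun x => norm_nonneg _
  have hu1 : ∀ x, u x ≤ 1 := fun x => (hθ i0).2.1 _
  have hv1 : ∀ x, v x ≤ 1 := fun x => (hθ j).2.1 _
  have hw1 : ∀ x, w x ≤ 1 := fun x => hψ.2.1 _
  have hiu2 : Integrable (fun x => u x ^ 2) lam := int_bdd (hum.pow_const 2) (C := 1) fun x => by
    rw [Real.norm_of_nonneg (by positivity)]
    exact pow_le_one₀ (hu0 x) (hu1 x)
  have hiw2 : Integrable (fun x => w x ^ 2) lam := int_bdd (hwm.pow_const 2) (C := 1) fun x => by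
    rw [Real.norm_of_nonneg (by positivity)]
    exact pow_le_one₀ (hw0 x) (hw1 x)
  have hiu2v : Integrable (fun x => u x ^ 2 * v x) lam :=
    int_bdd ((hum.pow_const 2).mul hvm) (C := 1) fun x => by
      rw [Real.norm_of_nonneg (mul_nonneg (by positivity) (hv0 x))]
      exact mul_le_one₀ (pow_le_one₀ (hu0 x) (hu1 x)) (hv0 x) (hv1 x)
  have hU2 : ∫ x, u x ^ 2 ∂lam = c.toReal * ∫ x, ‖ψ x‖ ^ 2 ∂μ := by
    rw [← hmass]
    exact int_coord (measurable_pi_apply i0) (hco i0) (F := fun y => ‖θ i0 y‖ ^ 2)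
      ((hθ i0).1.norm.pow_const 2).stronglyMeasurable
  have hW2 : ∫ x, w x ^ 2 ∂lam = c.toReal * ∫ x, ‖ψ x‖ ^ 2 ∂μ :=
    int_coord (lin_meas a) hlin (F := fun y => ‖ψ y‖ ^ 2)
      (hψ.1.norm.pow_const 2).stronglyMeasurable
  have hkey : c.toReal * ∫ x, ‖ψ x‖ ^ 2 ∂μ ≤ ∫ x, (u x ^ 2 * v x / 2 + w x ^ 2 / 2) ∂lam := by
    refine (key a E hE c hlin _ b ψ θ hψ hθ).trans ?_
    refine integral_mono ?_ ((hiu2v.div_const 2).add (hiw2.div_const 2)) fun x => ?_
    · refine int_bdd ?_ (C := 1) fun x => ?_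
      · exact (Finset.measurable_prod _ fun i _ => ((hθ i).1.comp (measurable_pi_apply i)).norm).mul
          hwm
      · rw [norm_mul, norm_norm, norm_prod]
        refine mul_le_one₀ (Finset.prod_le_one (fun i _ => norm_nonneg _) fun i _ => ?_)
          (norm_nonneg _) (hψ.2.1 _)
        rw [norm_norm]; exact (hθ i).2.1 _
    · simp only
      have h1 : ∏ i, ‖θ i (x i)‖ ≤ u x * v x := by
        rw [← Finset.mul_prod_erase Finset.univ _ (Finset.mem_univ i0)]
        refine mul_le_mul_of_nonneg_left ?_ (hu0 x)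
        rw [← Finset.mul_prod_erase _ _ (Finset.mem_erase.2 ⟨hj, Finset.mem_univ j⟩)]
        exact mul_le_of_le_one_right (hv0 x)
          (Finset.prod_le_one (fun i _ => norm_nonneg _) fun i _ => (hθ i).2.1 _)
      have h2 : (∏ i, ‖θ i (x i)‖) * w x ≤ u x * v x * w x :=
        mul_le_mul_of_nonneg_right h1 (hw0 x)
      have h3 := sq_nonneg (u x * v x - w x)
      have h4 : (u x * v x) ^ 2 ≤ u x ^ 2 * v x := by
        rw [mul_pow]
        refine mul_le_mul_of_nonneg_left ?_ (by positivity)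
        nlinarith [hv0 x, hv1 x]
      nlinarith
  rw [integral_add (hiu2v.div_const 2) (hiw2.div_const 2), integral_div, integral_div, hW2] at hkey
  have hzero : ∫ x, (u x ^ 2 - u x ^ 2 * v x) ∂lam = 0 := by
    refine le_antisymm ?_ (integral_nonneg fun x => ?_)
    · rw [integral_sub hiu2 hiu2v, hU2]
      linarith
    · simp only [Pi.zero_apply, sub_nonneg]
      exact mul_le_of_le_one_right (by positivity) (hv1 x)
  have hnn : ∀ x, 0 ≤ u x ^ 2 - u x ^ 2 * v x := fun x => by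
    rw [sub_nonneg]
    exact mul_le_of_le_one_right (by positivity) (hv1 x)
  have hae := (integral_eq_zero_iff_of_nonneg (μ := lam)
    (f := fun x => u x ^ 2 - u x ^ 2 * v x) hnn (hiu2.sub hiu2v)).1 hzero
  -- the set where the limit has modulus one
  set B : Set T := {x | ‖θ j x‖ = 1} with hB
  have hBm : MeasurableSet B := measurableSet_eq_fun (hθ j).1.norm measurable_const
  have hB0 : μ B ≠ 0 := by
    intro h1
    have h2 : lam ((fun x : Fin k → T => x j) ⁻¹' B) = 0 := by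
      rw [← Measure.map_apply (measurable_pi_apply j) hBm, hco j]
      simp [h1]
    have h3 : ∫ x, u x ^ 2 ∂lam = 0 := by
      refine integral_eq_zero_of_ae ?_
      have h4 : ∀ᵐ x ∂lam, x ∉ (fun x : Fin k → T => x j) ⁻¹' B := measure_eq_zero_iff_ae_notMem.1 h2
      filter_upwards [hae, h4] with x hx hx'
      have h5 : u x ^ 2 - u x ^ 2 * v x = 0 := hx
      have h6 : v x ≠ 1 := hx'
      have h7 : u x ^ 2 * (1 - v x) = 0 := by linarith
      rcases mul_eq_zero.1 h7 with h8 | h8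
      · exact h8
      · exact absurd (by linarith) h6
    rw [hU2] at h3
    have := mul_pos hcr hψ0
    linarith
  have hD : ∀ δ : ℝ, 0 < δ → ∃ D : ℤ, D ≠ 0 ∧ ∫ x in B, ‖1 - e D x‖ ^ 2 ∂μ ≤ δ := fun δ hδ =>
    (hθ j).diff hinj hBm (fun x hx => hx) hδ
  -- rigidity and the gap
  set K : ℝ := ∑ i ∈ Finset.univ.erase i0, (a i : ℝ) ^ 2 with hK
  have hK0 : 0 ≤ K := Finset.sum_nonneg fun i _ => by positivity
  have hp0 : (0 : ℝ) < p := by
    have : 0 < p := by omega
    exact_mod_cast this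
  obtain ⟨M, hM0, hM1⟩ := h.rigid h0 hBm hB0 hD
    (δ := c.toReal / (p ^ 2 * (2 + K))) (by positivity)
  set δ : ℝ := c.toReal / (p ^ 2 * (2 + K)) with hδ
  have hgap := gap_join hp hpinv a i0 hi0 _ c hlin hco M
  set q : Fin k → ℝ := fun i => dist2 μ (a i * M) with hq
  have hq0 : ∀ i, 0 ≤ q i := fun i => dist2_nonneg _ _
  have hqle : ∀ i, q i ≤ (a i : ℝ) ^ 2 * δ := fun i =>
    (dist2_mul μ _ _).trans (mul_le_mul_of_nonneg_left hM1 (by positivity))
  set Q : ℝ := ∑ i ∈ Finset.univ.erase i0, q i with hQ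
  have hQ0 : 0 ≤ Q := Finset.sum_nonneg fun i _ => hq0 i
  have hQle : Q ≤ K * δ := by
    rw [hK, Finset.sum_mul]
    exact Finset.sum_le_sum fun i _ => hqle i
  have hq0le : q i0 ≤ δ := by
    have h1 := hqle i0
    have h2 : (a i0 : ℝ) ^ 2 = 1 := by
      have h3 : (a i0) ^ 2 = 1 := by
        rw [← sq_abs, hi0]; norm_num
      exact_mod_cast h3
    rwa [h2, one_mul] at h1
  have hsum : ∑ i, q i = q i0 + Q := (Finset.add_sum_erase Finset.univ _ (Finset.mem_univ i0)).symm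
  have hsum2 : ∑ i, q i ^ 2 = q i0 ^ 2 + ∑ i ∈ Finset.univ.erase i0, q i ^ 2 :=
    (Finset.add_sum_erase Finset.univ _ (Finset.mem_univ i0)).symm
  have hsum3 : 0 ≤ ∑ i ∈ Finset.univ.erase i0, q i ^ 2 := Finset.sum_nonneg fun i _ => by positivity
  have hQz : Q = 0 := by
    have hδ0 : 0 < δ := by positivity
    have h1 : c.toReal * Q ≤ (p : ℝ) ^ 2 / 4 * (2 * q i0 * Q + Q ^ 2) := by
      refine hgap.trans (mul_le_mul_of_nonneg_left ?_ (by positivity))
      rw [hsum, hsum2]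
      nlinarith
    have h2 : (p : ℝ) ^ 2 / 4 * (2 * q i0 * Q + Q ^ 2) ≤ (p : ℝ) ^ 2 / 4 * ((2 + K) * δ * Q) := by
      refine mul_le_mul_of_nonneg_left ?_ (by positivity)
      have h3 : 2 * q i0 + Q ≤ (2 + K) * δ := by linarith
      calc 2 * q i0 * Q + Q ^ 2 = (2 * q i0 + Q) * Q := by ring
        _ ≤ (2 + K) * δ * Q := mul_le_mul_of_nonneg_right h3 hQ0
    have h3 : (p : ℝ) ^ 2 / 4 * ((2 + K) * δ * Q) = c.toReal / 4 * Q := by
      rw [hδ]
      field_simp
    rw [h3] at h2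
    have h4 : c.toReal * Q ≤ c.toReal / 4 * Q := h1.trans h2
    have h5 : 0 < c.toReal * (3 / 4) := by positivity
    nlinarith
  have hqj : q j = 0 := by
    have h1 := (Finset.sum_eq_zero_iff_of_nonneg fun i _ => hq0 i).1 hQz
    exact h1 j (Finset.mem_erase.2 ⟨hj, Finset.mem_univ j⟩)
  -- the measure is carried by a finite set
  have hjM : a j * M ≠ 0 := mul_ne_zero haj hM0
  refine ⟨{x : T | (a j * M) • x = 0}, ?_, ?_⟩
  · have hn : 0 < (a j * M).natAbs := Int.natAbs_pos.2 hjM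
    refine (AddCircle.finite_torsion (1 : ℝ) hn).subset fun x hx => ?_
    have hx' : (a j * M) • x = 0 := hx
    change (a j * M).natAbs • x = 0
    rcases Int.natAbs_eq (a j * M) with h1 | h1
    · rw [h1, natCast_zsmul] at hx'
      exact hx'
    · rw [h1, neg_smul, natCast_zsmul, neg_eq_zero] at hx'
      exact hx'
  · have h1 := (integral_eq_zero_iff_of_nonneg (μ := μ)
      (f := fun x => ‖1 - e (a j * M) x‖ ^ 2) (fun x => by positivity) (int2 μ (a j * M))).1 hqj
    rw [measure_eq_zero_iff_ae_notMem]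
    filter_upwards [h1] with x hx
    rw [notMem_compl_iff]
    have h2 : ‖1 - e (a j * M) x‖ ^ 2 = 0 := hx
    have h3 : 1 - e (a j * M) x = 0 := by
      rw [← norm_eq_zero]
      exact (pow_eq_zero_iff two_ne_zero).1 h2
    exact e_eq_one (sub_eq_zero.1 h3).symm

end Q123.CV
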