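import Pool.Agent.Q123.CV.Tens

/-!
Rigidity on a set of positive measure gives rigidity.
-/

set_option autoImplicit false

open MeasureTheory Filter Topology Set
open scoped ENNReal ComplexConjugate

namespace Q123.CV

lemma zmul_close (a n : ℤ) (x : T) : ‖1 - e (a * n) x‖ ≤ |(a : ℝ)| * ‖1 - e n x‖ := by
  rcases le_total 0 a with ha | ha
  · obtain ⟨m, rfl⟩ := Int.eq_ofNat_of_zero_le ha
    rw [e_pow]
    have := pow_close (e_norm n x) m
    simpa using this
  · obtain ⟨m, hm⟩ := Int.eq_ofNat_of_zero_le (neg_nonneg.2 ha)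
    have h1 : a = -(m : ℤ) := by omega
    subst h1
    have h2 : ‖1 - e (-(m : ℤ) * n) x‖ = ‖1 - e ((m : ℤ) * n) x‖ := by
      rw [neg_mul, e_neg]
      rw [← RCLike.norm_conj (1 - e ((m : ℤ) * n) x)]
      rw [map_sub, map_one]
    rw [h2, e_pow]
    have := pow_close (e_norm n x) m
    simpa using this

lemma dist2_mul (μ : Measure T) [IsProbabilityMeasure μ] (a n : ℤ) :
    dist2 μ (a * n) ≤ (a : ℝ) ^ 2 * dist2 μ n := by
  unfold dist2
  rw [← integral_const_mul]
  refine integral_mono (int2 μ _) ((int2 μ n).const_mul _) fun x => ?_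
  simp only
  have h1 := zmul_close a n x
  have h2 := norm_nonneg (1 - e (a * n) x)
  calc ‖1 - e (a * n) x‖ ^ 2 ≤ (|(a : ℝ)| * ‖1 - e n x‖) ^ 2 := by gcongr
    _ = _ := by rw [mul_pow, sq_abs]

/-- the translates of a set of positive measure cover the circle -/
lemma Erg.cover {S : Set ℕ} {μ : Measure T} [IsProbabilityMeasure μ] (h : Erg S μ) {B : Set T}
    (hB : MeasurableSet B) (hB0 : μ B ≠ 0) {δ : ℝ} (hδ : 0 < δ) :
    ∃ n : ℕ, μ.real (⋃ s ∈ {s | s ∈ S ∧ s ≤ n}, (fun x : T => s • x) ⁻¹' B)ᶜ ≤ δ := by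
  classical
  set A : ℕ → Set T := fun n => ⋃ s ∈ {s | s ∈ S ∧ s ≤ n}, (fun x : T => s • x) ⁻¹' B with hA
  have hAm : ∀ n, MeasurableSet (A n) := fun n =>
    MeasurableSet.biUnion (to_countable _) fun s _ => meas_smul s hB
  have hmono : Monotone A := by
    intro m n hmn x hx
    simp only [hA, mem_iUnion, mem_ofPred_eq] at hx ⊢
    obtain ⟨s, ⟨h1, h2⟩, h3⟩ := hx
    exact ⟨s, ⟨h1, h2.trans hmn⟩, h3⟩
  set V : Set T := ⋃ n, A n with hV
  have hVm : MeasurableSet V := MeasurableSet.iUnion hAm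
  have hVmem : ∀ x, x ∈ V ↔ ∃ s ∈ S, s • x ∈ B := by
    intro x
    simp only [hV, hA, mem_iUnion, mem_ofPred_eq, mem_preimage]
    constructor
    · rintro ⟨n, s, ⟨h1, -⟩, h3⟩
      exact ⟨s, h1, h3⟩
    · rintro ⟨s, h1, h3⟩
      exact ⟨s, s, ⟨h1, le_rfl⟩, h3⟩
  have hV1 : μ V = 1 := by
    have h1 : ∀ n ∈ S, ∀ᵐ x ∂μ, (n • x ∈ V ↔ x ∈ V) := by
      intro n hn
      have hsub : (fun x : T => n • x) ⁻¹' V ⊆ V := by
        intro x hx
        rw [mem_preimage, hVmem] at hx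
        obtain ⟨s, hs, h2⟩ := hx
        rw [hVmem]
        refine ⟨s * n, h.mul _ hs _ hn, ?_⟩
        rwa [mul_smul]
      have heq : (fun x : T => n • x) ⁻¹' V =ᵐ[μ] V := by
        refine ae_eq_of_subset_of_measure_ge hsub ?_ (meas_smul n hVm).nullMeasurableSet
          (measure_ne_top _ _)
        rw [(h.inv n hn).measure_preimage hVm.nullMeasurableSet]
      filter_upwards [heq] with x hx
      exact Iff.of_eq hx
    rcases h.zero_one hVm h1 with h2 | h2
    · exfalso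
      obtain ⟨s, hs⟩ := h.ne
      apply hB0
      rw [← (h.inv s hs).measure_preimage hB.nullMeasurableSet]
      refine measure_mono_null ?_ h2
      intro x hx
      rw [hVmem]
      exact ⟨s, hs, hx⟩
    · exact h2
  have hlim := tendsto_measure_iUnion_atTop (μ := μ) hmono
  rw [← hV, hV1] at hlim
  have h3 : Tendsto (fun n => μ.real (A n)) atTop (𝓝 1) := by
    have := (ENNReal.tendsto_toReal ENNReal.one_ne_top).comp hlim
    rw [ENNReal.toReal_one] at this
    exact this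
  obtain ⟨n, hn⟩ := (h3.eventually (lt_mem_nhds (show (1 - δ : ℝ) < 1 by linarith))).exists
  refine ⟨n, ?_⟩
  rw [probReal_compl_eq_one_sub (hAm n)]
  linarith

/-- if some character is close to one on a set of positive measure, then some character is close
to one -/
lemma Erg.rigid {S : Set ℕ} {μ : Measure T} [IsProbabilityMeasure μ] (h : Erg S μ) (h0 : 0 ∉ S)
    {B : Set T} (hB : MeasurableSet B) (hB0 : μ B ≠ 0)
    (hD : ∀ δ : ℝ, 0 < δ → ∃ D : ℤ, D ≠ 0 ∧ ∫ x in B, ‖1 - e D x‖ ^ 2 ∂μ ≤ δ)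
    {δ : ℝ} (hδ : 0 < δ) : ∃ M : ℤ, M ≠ 0 ∧ dist2 μ M ≤ δ := by
  classical
  obtain ⟨n, hn⟩ := h.cover hB hB0 (δ := δ / 8) (by positivity)
  set A : Set T := ⋃ s ∈ {s | s ∈ S ∧ s ≤ n}, (fun x : T => s • x) ⁻¹' B with hA
  have hAm : MeasurableSet A := MeasurableSet.biUnion (to_countable _) fun s _ => meas_smul s hB
  set K : ℝ := (n + 1) * (n.factorial : ℝ) ^ 2 with hK
  have hK0 : 0 < K := by positivity
  obtain ⟨D, hD0, hD1⟩ := hD (δ / (2 * K)) (by positivity)
  refine ⟨n.factorial * D, mul_ne_zero (by exact_mod_cast n.factorial_ne_zero) hD0, ?_⟩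
  set F : T → ℝ := B.indicator (fun x => ‖1 - e D x‖ ^ 2) with hF
  have hF0 : ∀ x, 0 ≤ F x := fun x => indicator_nonneg (fun y _ => by positivity) x
  have hFm : Measurable F := ((sub_meas D).pow_const 2).indicator hB
  have hFi : Integrable F μ := (int2 μ D).indicator hB
  have hFint : ∫ x, F x ∂μ ≤ δ / (2 * K) := by
    rw [hF, integral_indicator hB]; exact hD1
  set I : Finset ℕ := (Finset.range (n + 1)).filter (fun s => s ∈ S) with hI
  have hFs : ∀ s ∈ I, Integrable (fun x => F (s • x)) μ ∧ ∫ x, F (s • x) ∂μ = ∫ x, F x ∂μ := by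
    intro s hs
    have hs1 : s ∈ S := (Finset.mem_filter.1 hs).2
    refine ⟨?_, map_int (h.inv s hs1) hFm.stronglyMeasurable⟩
    exact (h.inv s hs1).integrable_comp_of_integrable hFi
  have hpt : ∀ x, ‖1 - e (n.factorial * D) x‖ ^ 2 ≤
      (n.factorial : ℝ) ^ 2 * ∑ s ∈ I, F (s • x) + 4 * (Aᶜ).indicator (fun _ => (1 : ℝ)) x := by
    intro x
    have hnn : 0 ≤ ∑ s ∈ I, F (s • x) := Finset.sum_nonneg fun s _ => hF0 _
    by_cases hx : x ∈ A
    · have hx' := hx
      simp only [hA, mem_iUnion, mem_ofPred_eq, mem_preimage] at hx'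
      obtain ⟨s, ⟨h1, h2⟩, h3⟩ := hx'
      have hs0 : 0 < s := Nat.pos_of_ne_zero fun h4 => h0 (h4 ▸ h1)
      obtain ⟨t, ht⟩ := Nat.dvd_factorial hs0 h2
      have h5 : ‖1 - e (n.factorial * D) x‖ ≤ (n.factorial : ℝ) * ‖1 - e D (s • x)‖ := by
        have h6 : ((n.factorial : ℕ) : ℤ) * D = (t : ℤ) * ((s : ℤ) * D) := by
          rw [ht]; push_cast; ring
        rw [h6, e_pow, e_nsmul]
        refine (pow_close (e_norm _ x) t).trans ?_
        refine mul_le_mul_of_nonneg_right ?_ (norm_nonneg _)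
        have : t ≤ n.factorial := by
          rw [ht]; exact Nat.le_mul_of_pos_left t hs0
        exact_mod_cast this
      have h7 : F (s • x) = ‖1 - e D (s • x)‖ ^ 2 := by
        rw [hF, indicator_of_mem h3]
      have h8 : F (s • x) ≤ ∑ s ∈ I, F (s • x) :=
        Finset.single_le_sum (f := fun s => F (s • x)) (fun i _ => hF0 _)
          (Finset.mem_filter.2 ⟨Finset.mem_range.2 (by omega), h1⟩)
      have h9 : 0 ≤ 4 * (Aᶜ).indicator (fun _ => (1 : ℝ)) x :=
        mul_nonneg (by norm_num) (indicator_nonneg (fun _ _ => zero_le_one) x)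
      calc ‖1 - e (n.factorial * D) x‖ ^ 2 ≤ ((n.factorial : ℝ) * ‖1 - e D (s • x)‖) ^ 2 := by
            gcongr
        _ = (n.factorial : ℝ) ^ 2 * F (s • x) := by rw [mul_pow, h7]
        _ ≤ (n.factorial : ℝ) ^ 2 * ∑ s ∈ I, F (s • x) := by gcongr
        _ ≤ _ := le_add_of_nonneg_right h9
    · rw [indicator_of_mem (show x ∈ Aᶜ from hx)]
      have h1 := sub_le_two (n.factorial * D) x
      have h2 := norm_nonneg (1 - e (n.factorial * D) x)
      have h3 : 0 ≤ (n.factorial : ℝ) ^ 2 * ∑ s ∈ I, F (s • x) := by positivity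
      nlinarith
  unfold dist2
  have hi1 : Integrable (fun x => ∑ s ∈ I, F (s • x)) μ := integrable_finsetSum _ fun s hs => (hFs s hs).1
  have hi2 : Integrable ((Aᶜ).indicator (fun _ => (1 : ℝ))) μ :=
    (integrable_const (1 : ℝ)).indicator hAm.compl
  calc ∫ x, ‖1 - e (n.factorial * D) x‖ ^ 2 ∂μ
      ≤ ∫ x, ((n.factorial : ℝ) ^ 2 * ∑ s ∈ I, F (s • x) + 4 * (Aᶜ).indicator (fun _ => (1 : ℝ)) x) ∂μ :=
        integral_mono (int2 μ _) ((hi1.const_mul _).add (hi2.const_mul _)) hpt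
    _ = (n.factorial : ℝ) ^ 2 * ∑ s ∈ I, ∫ x, F x ∂μ + 4 * μ.real Aᶜ := by
        rw [integral_add (hi1.const_mul _) (hi2.const_mul _), integral_const_mul, integral_const_mul,
          integral_finsetSum _ fun s hs => (hFs s hs).1]
        congr 1
        · congr 1
          exact Finset.sum_congr rfl fun s hs => (hFs s hs).2
        · congr 1
          rw [integral_indicator hAm.compl]
          simp
    _ ≤ (n.factorial : ℝ) ^ 2 * ((n + 1) * (δ / (2 * K))) + 4 * (δ / 8) := by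
        have h1 : ∑ s ∈ I, ∫ x, F x ∂μ ≤ (n + 1) * (δ / (2 * K)) := by
          rw [Finset.sum_const, nsmul_eq_mul]
          have h2 : ((I.card : ℕ) : ℝ) ≤ n + 1 := by
            have : I.card ≤ n + 1 := (Finset.card_filter_le _ _).trans (by simp)
            exact_mod_cast this
          have h3 : 0 ≤ ∫ x, F x ∂μ := integral_nonneg hF0
          calc ((I.card : ℕ) : ℝ) * ∫ x, F x ∂μ ≤ (n + 1) * ∫ x, F x ∂μ := by gcongr
            _ ≤ _ := by gcongr
        gcongr
    _ = δ := by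
        rw [hK]
        field_simp
        ring

end Q123.CV
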