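import Pool.Agent.Q123.CV.Ext

/-!
Weak limits of characters: uniqueness, conjugation and strong convergence.
-/

set_option autoImplicit false

open MeasureTheory Filter Topology Set
open scoped ENNReal ComplexConjugate

namespace Q123.CV

/-- `θ` is the weak limit of the characters `e (b m)` along `U` -/
def WL (μ : Measure T) (U : Ultrafilter ℕ) (b : ℕ → ℤ) (θ : T → ℂ) : Prop :=
  Measurable θ ∧ (∀ x, ‖θ x‖ ≤ 1) ∧ ∀ (h : T → ℂ) (C : ℝ), Measurable h →
      (∀ x, ‖h x‖ ≤ C) →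
      Tendsto (fun m => ∫ x, e (b m) x * h x ∂μ) U (𝓝 (∫ x, θ x * h x ∂μ))

lemma WL.exists (μ : Measure T) [IsProbabilityMeasure μ] (U : Ultrafilter ℕ) (b : ℕ → ℤ) :
    ∃ θ, WL μ U b θ := weak_limit μ U b

lemma WL.conj {μ : Measure T} {U : Ultrafilter ℕ} {b : ℕ → ℤ} {θ : T → ℂ}
    (h : WL μ U b θ) : WL μ U (fun m => - b m) (fun x => conj (θ x)) := by
  obtain ⟨h1, h2, h3⟩ := h
  refine ⟨Complex.continuous_conj.measurable.comp h1, fun x => by rw [RCLike.norm_conj]; exact h2 x,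
    fun g C hg hC => ?_⟩
  have h4 := h3 (fun x => conj (g x)) C (Complex.continuous_conj.measurable.comp hg)
    (fun x => by rw [RCLike.norm_conj]; exact hC x)
  have h5 := (Complex.continuous_conj.tendsto _).comp h4
  have e1 : ∀ m, conj (∫ x, e (b m) x * conj (g x) ∂μ) = ∫ x, e (-b m) x * g x ∂μ := by
    intro m
    rw [← integral_conj]
    congr 1
    ext x
    rw [map_mul, e_neg, Complex.conj_conj]
  have e2 : conj (∫ x, θ x * conj (g x) ∂μ) = ∫ x, conj (θ x) * g x ∂μ := by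
    rw [← integral_conj]
    congr 1
    ext x
    rw [map_mul, Complex.conj_conj]
  rw [← e2]
  refine h5.congr fun m => ?_
  exact e1 m

lemma sq_int {X : Type*} [MeasurableSpace X] (μ : Measure X) (θ : X → ℂ) :
    ∫ x, θ x * conj (θ x) ∂μ = ((∫ x, ‖θ x‖ ^ 2 ∂μ : ℝ) : ℂ) := by
  rw [← integral_complex_ofReal]
  congr 1
  ext x
  rw [Complex.mul_conj, Complex.normSq_eq_norm_sq]

lemma WL.norm_eq {μ : Measure T} {U : Ultrafilter ℕ} {b : ℕ → ℤ} {θ ψ : T → ℂ}
    (h : WL μ U b θ) (h' : WL μ U b ψ) : ∫ x, ‖θ x‖ ^ 2 ∂μ = ∫ x, ‖ψ x‖ ^ 2 ∂μ := by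
  have hcm : ∀ g : T → ℂ, Measurable g → Measurable fun x => conj (g x) := fun g hg =>
    Complex.continuous_conj.measurable.comp hg
  have hcb : ∀ g : T → ℂ, (∀ x, ‖g x‖ ≤ 1) → ∀ x, ‖conj (g x)‖ ≤ 1 := fun g hg x => by
    rw [RCLike.norm_conj]; exact hg x
  have h1 := tendsto_nhds_unique (h.2.2 _ 1 (hcm θ h.1) (hcb θ h.2.1))
    (h'.2.2 _ 1 (hcm θ h.1) (hcb θ h.2.1))
  have h2 := tendsto_nhds_unique (h.2.2 _ 1 (hcm ψ h'.1) (hcb ψ h'.2.1))
    (h'.2.2 _ 1 (hcm ψ h'.1) (hcb ψ h'.2.1))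
  have h3 : ∫ x, ψ x * conj (θ x) ∂μ = conj (∫ x, θ x * conj (ψ x) ∂μ) := by
    rw [← integral_conj]
    congr 1
    ext x
    rw [map_mul, Complex.conj_conj, mul_comm]
  rw [h3, h2, sq_int, sq_int, Complex.conj_ofReal] at h1
  exact_mod_cast h1

/-- strong convergence on the set where the limit has modulus one -/
lemma WL.strong {μ : Measure T} [IsProbabilityMeasure μ] {U : Ultrafilter ℕ} {b : ℕ → ℤ}
    {θ : T → ℂ} (h : WL μ U b θ) {B : Set T} (hB : MeasurableSet B) (h1 : ∀ x ∈ B, ‖θ x‖ = 1) :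
    Tendsto (fun m => ∫ x in B, ‖e (b m) x - θ x‖ ^ 2 ∂μ) U (𝓝 0) := by
  have hcm : Measurable fun x => conj (θ x) := Complex.continuous_conj.measurable.comp h.1
  have h2 := h.2.2 (B.indicator fun x => conj (θ x)) 1 (hcm.indicator hB) (fun x => by
    refine (norm_indicator_le_norm_self _ _).trans ?_
    rw [RCLike.norm_conj]; exact h.2.1 x)
  have e1 : ∀ g : T → ℂ, ∫ x, g x * B.indicator (fun x => conj (θ x)) x ∂μ =
      ∫ x in B, g x * conj (θ x) ∂μ := by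
    intro g
    rw [← integral_indicator hB]
    congr 1
    ext x
    by_cases hx : x ∈ B
    · rw [indicator_of_mem hx, indicator_of_mem hx]
    · rw [indicator_of_notMem hx, indicator_of_notMem hx, mul_zero]
  simp_rw [e1] at h2
  have e2 : ∫ x in B, θ x * conj (θ x) ∂μ = ((μ.real B : ℝ) : ℂ) := by
    rw [sq_int]
    congr 1
    have : ∫ x in B, ‖θ x‖ ^ 2 ∂μ = ∫ x in B, (1 : ℝ) ∂μ := by
      refine setIntegral_congr_fun hB fun x hx => ?_
      rw [h1 x hx]; norm_num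
    rw [this]
    simp
  rw [e2] at h2
  have h3 := ((Complex.continuous_re.tendsto _).comp h2)
  have h4 : Tendsto (fun m => 2 * μ.real B - 2 * (∫ x in B, e (b m) x * conj (θ x) ∂μ).re) U
      (𝓝 (2 * μ.real B - 2 * μ.real B)) := by
    refine Tendsto.sub tendsto_const_nhds (Tendsto.const_mul 2 ?_)
    rw [Complex.ofReal_re] at h3
    exact h3
  rw [sub_self] at h4
  refine h4.congr fun m => ?_
  have hi : Integrable (fun x => e (b m) x * conj (θ x)) (μ.restrict B) :=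
    int_bdd ((e_meas _).mul hcm) (C := 1) fun x => by
      rw [norm_mul, e_norm, one_mul, RCLike.norm_conj]; exact h.2.1 x
  rw [re_int hi]
  have e3 : ∫ x in B, ‖e (b m) x - θ x‖ ^ 2 ∂μ =
      ∫ x in B, (2 - 2 * (e (b m) x * conj (θ x)).re) ∂μ := by
    refine setIntegral_congr_fun hB fun x hx => ?_
    have h5 := e_norm (b m) x
    have h6 := h1 x hx
    have h7 : ‖e (b m) x‖ ^ 2 = 1 := by rw [h5]; norm_num
    have h8 : ‖θ x‖ ^ 2 = 1 := by rw [h6]; norm_num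
    rw [← Complex.normSq_eq_norm_sq, Complex.normSq_apply] at h7 h8 ⊢
    simp only [Complex.sub_re, Complex.sub_im, Complex.mul_re, Complex.conj_re, Complex.conj_im]
    nlinarith
  have hir : Integrable (fun x => 2 * (e (b m) x * conj (θ x)).re) (μ.restrict B) :=
    hi.re.const_mul 2
  rw [e3, integral_sub (integrable_const _) hir, integral_const_mul]
  congr 1
  simp [mul_comm]

/-- differences of characters that converge strongly on `B` -/
lemma WL.diff {μ : Measure T} [IsProbabilityMeasure μ] {b : ℕ → ℤ} (hb : Function.Injective b)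
    {θ : T → ℂ} (h : WL μ (hyperfilter ℕ) b θ) {B : Set T} (hB : MeasurableSet B)
    (h1 : ∀ x ∈ B, ‖θ x‖ = 1) {δ : ℝ} (hδ : 0 < δ) :
    ∃ D : ℤ, D ≠ 0 ∧ ∫ x in B, ‖1 - e D x‖ ^ 2 ∂μ ≤ δ := by
  have h2 := (h.strong hB h1).eventually (gt_mem_nhds (show (0 : ℝ) < δ / 4 by positivity))
  have h3 : {m : ℕ | ∫ x in B, ‖e (b m) x - θ x‖ ^ 2 ∂μ < δ / 4}.Infinite :=
    fun hf => notMem_hyperfilter_of_finite hf h2
  obtain ⟨m, hm, n, hn, hmn⟩ := h3.nontrivial
  refine ⟨b n - b m, sub_ne_zero.2 fun h4 => hmn (hb h4).symm, ?_⟩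
  have hi : ∀ m, Integrable (fun x => ‖e (b m) x - θ x‖ ^ 2) (μ.restrict B) := fun m =>
    int_bdd (((e_meas _).sub h.1).norm.pow_const 2) (C := 4) fun x => by
      rw [Real.norm_of_nonneg (by positivity)]
      have h5 : ‖e (b m) x - θ x‖ ≤ 2 := by
        refine (norm_sub_le _ _).trans ?_
        rw [e_norm]
        linarith [h.2.1 x]
      nlinarith [norm_nonneg (e (b m) x - θ x)]
  have hpt : ∀ x, ‖1 - e (b n - b m) x‖ ^ 2 ≤
      2 * ‖e (b m) x - θ x‖ ^ 2 + 2 * ‖e (b n) x - θ x‖ ^ 2 := by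
    intro x
    have h5 : ‖1 - e (b n - b m) x‖ = ‖e (b m) x - e (b n) x‖ := by
      have h6 : e (b m) x - e (b n) x = e (b m) x * (1 - e (b n - b m) x) := by
        rw [mul_sub, mul_one, ← e_add]
        congr 2
        ring
      rw [h6, norm_mul, e_norm, one_mul]
    rw [h5]
    have h7 : ‖e (b m) x - e (b n) x‖ ≤ ‖e (b m) x - θ x‖ + ‖e (b n) x - θ x‖ := by
      have h8 : e (b m) x - e (b n) x = (e (b m) x - θ x) - (e (b n) x - θ x) := by ring
      rw [h8]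
      exact norm_sub_le _ _
    have h9 := norm_nonneg (e (b m) x - e (b n) x)
    have h10 := sq_nonneg (‖e (b m) x - θ x‖ - ‖e (b n) x - θ x‖)
    nlinarith
  calc ∫ x in B, ‖1 - e (b n - b m) x‖ ^ 2 ∂μ
      ≤ ∫ x in B, (2 * ‖e (b m) x - θ x‖ ^ 2 + 2 * ‖e (b n) x - θ x‖ ^ 2) ∂μ :=
        integral_mono (int2 _ _) (((hi m).const_mul 2).add ((hi n).const_mul 2)) hpt
    _ = 2 * ∫ x in B, ‖e (b m) x - θ x‖ ^ 2 ∂μ + 2 * ∫ x in B, ‖e (b n) x - θ x‖ ^ 2 ∂μ := by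
        rw [integral_add ((hi m).const_mul 2) ((hi n).const_mul 2), integral_const_mul,
          integral_const_mul]
    _ ≤ 2 * (δ / 4) + 2 * (δ / 4) := by
        have h5 : ∫ x in B, ‖e (b m) x - θ x‖ ^ 2 ∂μ < δ / 4 := hm
        have h6 : ∫ x in B, ‖e (b n) x - θ x‖ ^ 2 ∂μ < δ / 4 := hn
        gcongr
    _ = δ := by ring

end Q123.CV
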