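import Pool.Agent.Q123.CV.Join
import Mathlib.Probability.Independence.Integration

/-!
The gap: no character is nontrivially close to one.
-/

set_option autoImplicit false

open MeasureTheory Filter Topology Set
open scoped ENNReal ComplexConjugate

namespace Q123.CV

variable {k : ℕ}

lemma prod_close {ι : Type*} (s : Finset ι) (z : ι → ℂ) (hz : ∀ i ∈ s, ‖z i‖ = 1) :
    ‖1 - ∏ i ∈ s, z i‖ ≤ ∑ i ∈ s, ‖1 - z i‖ ∧
    ‖∑ i ∈ s, (1 - z i) - (1 - ∏ i ∈ s, z i)‖ ≤
      ((∑ i ∈ s, ‖1 - z i‖) ^ 2 - ∑ i ∈ s, ‖1 - z i‖ ^ 2) / 2 := by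
  classical
  induction s using Finset.induction_on with
  | empty => simp
  | insert a s ha ih =>
    obtain ⟨h1, h2⟩ := ih fun i hi => hz i (Finset.mem_insert_of_mem hi)
    have h3 := hz a (Finset.mem_insert_self _ _)
    rw [Finset.prod_insert ha, Finset.sum_insert ha, Finset.sum_insert ha, Finset.sum_insert ha]
    constructor
    · have h4 : 1 - z a * ∏ i ∈ s, z i = (1 - z a) + z a * (1 - ∏ i ∈ s, z i) := by ring
      rw [h4]
      refine (norm_add_le _ _).trans ?_
      rw [norm_mul, h3, one_mul]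
      linarith
    · have h4 : 1 - z a + ∑ i ∈ s, (1 - z i) - (1 - z a * ∏ i ∈ s, z i) =
          (∑ i ∈ s, (1 - z i) - (1 - ∏ i ∈ s, z i)) + (1 - z a) * (1 - ∏ i ∈ s, z i) := by ring
      rw [h4]
      refine (norm_add_le _ _).trans ?_
      rw [norm_mul]
      have h5 := mul_le_mul_of_nonneg_left h1 (norm_nonneg (1 - z a))
      nlinarith

/-- mean of a function of one coordinate under the joining -/
lemma int_coord {X Y : Type*} [MeasurableSpace X] [MeasurableSpace Y] {lam : Measure X}
    {μ : Measure Y} {c : ℝ≥0∞} {π : X → Y} (hπ : Measurable π) (h : lam.map π = c • μ)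
    {E : Type*} [NormedAddCommGroup E] [NormedSpace ℝ E] {F : Y → E} (hF : StronglyMeasurable F) :
    ∫ x, F (π x) ∂lam = c.toReal • ∫ y, F y ∂μ := by
  rw [← integral_smul_measure, ← h, integral_map hπ.aemeasurable hF.aestronglyMeasurable]

lemma sq_sub {ι : Type*} [Fintype ι] [DecidableEq ι] (f : ι → ℝ) :
    (∑ i, f i) ^ 2 - ∑ i, f i ^ 2 = ∑ i, ∑ j, (if i = j then 0 else f i * f j) := by
  rw [sq, Finset.sum_mul_sum, ← Finset.sum_sub_distrib]
  refine Finset.sum_congr rfl fun i _ => ?_
  rw [← Finset.add_sum_erase Finset.univ _ (Finset.mem_univ i)]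
  rw [← Finset.add_sum_erase Finset.univ (fun j => if i = j then 0 else f i * f j)
    (Finset.mem_univ i)]
  rw [if_pos rfl, zero_add, sq, add_sub_cancel_left]
  exact Finset.sum_congr rfl fun j hj => (if_neg (Finset.ne_of_mem_erase hj).symm).symm

/-- the gap inequality for the joining -/
theorem gap_join {μ : Measure T} [IsProbabilityMeasure μ] {p : ℕ} (hp : 2 ≤ p)
    (hpinv : MeasurePreserving (fun x : T => p • x) μ μ) (a : Fin k → ℤ) (i0 : Fin k)
    (hi0 : |a i0| = 1) (A : Set (Fin k → T)) (c : ℝ≥0∞)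
    (hlin : ((Measure.pi fun _ : Fin k => μ).restrict A).map (lin a) = c • μ)
    (hco : ∀ i, ((Measure.pi fun _ : Fin k => μ).restrict A).map (fun x => x i) = c • μ) (M : ℤ) :
    c.toReal * ∑ i ∈ Finset.univ.erase i0, dist2 μ (a i * M) ≤
      (p : ℝ) ^ 2 / 4 * ((∑ i, dist2 μ (a i * M)) ^ 2 - ∑ i, dist2 μ (a i * M) ^ 2) := by
  classical
  set P := Measure.pi (fun _ : Fin k => μ) with hP
  set lam := P.restrict A with hlam
  set cr := c.toReal with hcr
  set d : Fin k → (Fin k → T) → ℝ := fun i x => ‖1 - e (a i * M) (x i)‖ with hd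
  have hdm : ∀ i, Measurable (d i) := fun i => (sub_meas _).comp (measurable_pi_apply i)
  have hd2 : ∀ i x, d i x ≤ 2 := fun i x => sub_le_two _ _
  have hd0 : ∀ i x, 0 ≤ d i x := fun i x => norm_nonneg _
  have hdi : ∀ (ν : Measure (Fin k → T)) [IsFiniteMeasure ν] (i : Fin k), Integrable (d i) ν :=
    fun ν _ i => int_bdd (hdm i) (C := 2) fun x => by
      rw [Real.norm_of_nonneg (hd0 i x)]; exact hd2 i x
  have hddi : ∀ (ν : Measure (Fin k → T)) [IsFiniteMeasure ν] (i j : Fin k),
      Integrable (fun x => d i x * d j x) ν :=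
    fun ν _ i j => int_bdd ((hdm i).mul (hdm j)) (C := 4) fun x => by
      rw [Real.norm_of_nonneg (mul_nonneg (hd0 i x) (hd0 j x))]
      nlinarith [hd2 i x, hd2 j x, hd0 i x, hd0 j x]
  -- the identity
  have hz : ∀ x : Fin k → T, ∀ i ∈ Finset.univ, ‖e (a i * M) (x i)‖ = 1 := fun x i _ => e_norm _ _
  have hpt : ∀ x : Fin k → T, ∑ i, (1 - e (a i * M) (x i)).re - (1 - e M (lin a x)).re ≤
      ((∑ i, d i x) ^ 2 - ∑ i, d i x ^ 2) / 2 := by
    intro x
    have h1 := (prod_close Finset.univ (fun i => e (a i * M) (x i)) (hz x)).2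
    rw [← e_lin] at h1
    have h2 := Complex.re_le_norm (∑ i, (1 - e (a i * M) (x i)) - (1 - e M (lin a x)))
    rw [Complex.sub_re, Complex.re_sum] at h2
    exact h2.trans h1
  have hre : ∀ (n : ℤ), ∫ y, (1 - e n y).re ∂μ = dist2 μ n / 2 := by
    intro n
    have h1 : ∀ y, (1 - e n y).re = ‖1 - e n y‖ ^ 2 / 2 := by
      intro y
      rw [norm_one_sub_sq (e_norm n y)]
      simp
    simp_rw [h1]
    rw [integral_div]
    rfl
  have hrem : ∀ n : ℤ, Measurable (fun y : T => (1 - e n y).re) := fun n =>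
    Complex.measurable_re.comp (measurable_const.sub (e_meas n))
  have hreb : ∀ (n : ℤ) (y : T), ‖(1 - e n y).re‖ ≤ 2 := fun n y =>
    (Complex.abs_re_le_norm _).trans (sub_le_two n y)
  have hco1 : ∀ i, ∫ x, (1 - e (a i * M) (x i)).re ∂lam = cr * (dist2 μ (a i * M) / 2) := by
    intro i
    rw [← hre]
    exact int_coord (measurable_pi_apply i) (hco i) (F := fun y => (1 - e (a i * M) y).re)
      (hrem _).stronglyMeasurable
  have hlin1 : ∫ x, (1 - e M (lin a x)).re ∂lam = cr * (dist2 μ M / 2) := by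
    rw [← hre]
    exact int_coord (lin_meas a) hlin (F := fun y => (1 - e M y).re) (hrem _).stronglyMeasurable
  have hci : ∀ i, Integrable (fun x : Fin k → T => (1 - e (a i * M) (x i)).re) lam := fun i =>
    int_bdd ((hrem _).comp (measurable_pi_apply i)) (C := 2) fun x => hreb _ _
  have hli : Integrable (fun x : Fin k → T => (1 - e M (lin a x)).re) lam :=
    int_bdd ((hrem _).comp (lin_meas a)) (C := 2) fun x => hreb _ _
  have hsqi : ∀ (ν : Measure (Fin k → T)) [IsFiniteMeasure ν],
      Integrable (fun x => ((∑ i, d i x) ^ 2 - ∑ i, d i x ^ 2) / 2) ν := by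
    intro ν _
    refine Integrable.div_const ?_ _
    have e1 : (fun x => (∑ i, d i x) ^ 2 - ∑ i, d i x ^ 2) =
        fun x => ∑ i, ∑ j, (if i = j then 0 else d i x * d j x) := by
      ext x
      exact sq_sub fun i => d i x
    rw [e1]
    refine integrable_finsetSum _ fun i _ => integrable_finsetSum _ fun j _ => ?_
    by_cases hij : i = j
    · simp [hij]
    · simp only [hij, if_false]
      exact hddi ν i j
  have hsq0 : ∀ x, 0 ≤ ((∑ i, d i x) ^ 2 - ∑ i, d i x ^ 2) / 2 := by
    intro x
    have h1 := (norm_nonneg _).trans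
      (prod_close Finset.univ (fun i => e (a i * M) (x i)) (hz x)).2
    exact h1
  -- the left side
  have hL : ∫ x, (∑ i, (1 - e (a i * M) (x i)).re - (1 - e M (lin a x)).re) ∂lam =
      cr / 2 * ∑ i ∈ Finset.univ.erase i0, dist2 μ (a i * M) := by
    rw [integral_sub (integrable_finsetSum _ fun i _ => hci i) hli, integral_finsetSum _ fun i _ => hci i,
      hlin1]
    simp_rw [hco1]
    rw [← Finset.mul_sum, ← Finset.sum_div, ← Finset.add_sum_erase Finset.univ _ (Finset.mem_univ i0)]
    have hMM : dist2 μ (a i0 * M) = dist2 μ M := by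
      rcases (abs_eq zero_le_one).1 hi0 with h1 | h1
      · rw [h1, one_mul]
      · rw [h1, neg_one_mul]
        unfold dist2
        congr 1
        ext x
        rw [e_neg, ← RCLike.norm_conj (1 - e M x), map_sub, map_one]
    rw [hMM]
    ring
  have hind : ∀ i j, i ≠ j → ∫ x, d i x * d j x ∂P = dist1 μ (a i * M) * dist1 μ (a j * M) := by
    intro i j hij
    have h1 := (ProbabilityTheory.iIndepFun_pi (μ := fun _ : Fin k => μ)
      (X := fun (i : Fin k) (y : T) => ‖1 - e (a i * M) y‖)
      (fun i => (sub_meas _).aemeasurable)).indepFun hij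
    have h2 := h1.integral_fun_mul_eq_mul_integral (hdm i).aestronglyMeasurable
      (hdm j).aestronglyMeasurable
    have h3 : ∀ i, ∫ x, d i x ∂P = dist1 μ (a i * M) := by
      intro i
      have h4 : P.map (fun x : Fin k → T => x i) = μ :=
        (measurePreserving_eval (fun _ : Fin k => μ) i).map_eq
      have h5 := integral_map (μ := P) (φ := fun x : Fin k → T => x i)
        (measurable_pi_apply i).aemeasurable (f := fun y : T => ‖1 - e (a i * M) y‖)
        (sub_meas _).aestronglyMeasurable
      rw [h4] at h5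
      exact h5.symm
    rw [← h3 i, ← h3 j]
    exact h2
  have hR : ∫ x, ((∑ i, d i x) ^ 2 - ∑ i, d i x ^ 2) / 2 ∂P ≤
      (p : ℝ) ^ 2 / 4 * ((∑ i, dist2 μ (a i * M)) ^ 2 - ∑ i, dist2 μ (a i * M) ^ 2) / 2 := by
    rw [integral_div]
    refine div_le_div_of_nonneg_right ?_ (by norm_num)
    simp_rw [sq_sub]
    rw [integral_finsetSum]
    · rw [Finset.mul_sum]
      refine Finset.sum_le_sum fun i _ => ?_
      rw [integral_finsetSum]
      · rw [Finset.mul_sum]
        refine Finset.sum_le_sum fun j _ => ?_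
        by_cases hij : i = j
        · simp [hij]
        · simp only [hij, if_false]
          rw [hind i j hij]
          have g1 := gap hp hpinv (a i * M)
          have g2 := gap hp hpinv (a j * M)
          have g3 := dist1_nonneg μ (a i * M)
          have g4 := dist1_nonneg μ (a j * M)
          have g5 := g3.trans g1
          calc dist1 μ (a i * M) * dist1 μ (a j * M)
              ≤ (p / 2 * dist2 μ (a i * M)) * (p / 2 * dist2 μ (a j * M)) := by gcongr
            _ = _ := by ring
      · intro j _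
        by_cases hij : i = j
        · simp [hij]
        · simp only [hij, if_false]
          exact hddi P i j
    · intro i _
      refine integrable_finsetSum _ fun j _ => ?_
      by_cases hij : i = j
      · simp [hij]
      · simp only [hij, if_false]
        exact hddi P i j
  have hmid : ∫ x, (∑ i, (1 - e (a i * M) (x i)).re - (1 - e M (lin a x)).re) ∂lam ≤
      ∫ x, ((∑ i, d i x) ^ 2 - ∑ i, d i x ^ 2) / 2 ∂P := by
    refine (integral_mono ((integrable_finsetSum _ fun i _ => hci i).sub hli) (hsqi lam) hpt).trans ?_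
    exact integral_mono_measure Measure.restrict_le_self (Eventually.of_forall hsq0) (hsqi P)
  rw [hL] at hmid
  linarith

end Q123.CV
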