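import Pool.Agent.Q123.CV.Four

/-!
Weak limits of products of characters of several variables.
-/

set_option autoImplicit false

open MeasureTheory Filter Topology Set
open scoped ENNReal ComplexConjugate BoundedContinuousFunction

namespace Q123.CV

variable {k : ℕ}

/-- approximation by trigonometric polynomials on the torus -/
lemma trig (f : C(Fin k → T, ℂ)) {ε : ℝ} (hε : 0 < ε) :
    ∃ (M : Finset (Fin k → ℤ)) (c : (Fin k → ℤ) → ℂ), ∀ x,
      ‖f x - ∑ n ∈ M, c n * ∏ i, e (n i) (x i)‖ ≤ ε := by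
  have hmem : f ∈ (Submodule.span ℂ (range (UnitAddTorus.mFourier (d := Fin k)))).topologicalClosure := by
    rw [UnitAddTorus.span_mFourier_closure_eq_top]
    exact Submodule.mem_top
  rw [← SetLike.mem_coe, Submodule.topologicalClosure_coe] at hmem
  obtain ⟨g, hg, hfg⟩ := Metric.mem_closure_iff.1 hmem ε hε
  rw [SetLike.mem_coe] at hg
  obtain ⟨c, hc⟩ := (Finsupp.mem_span_range_iff_exists_finsupp).1 hg
  refine ⟨c.support, c, fun x => ?_⟩
  have e1 : ∑ n ∈ c.support, c n * ∏ i, e (n i) (x i) = g x := by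
    rw [← hc, Finsupp.sum, ContinuousMap.coe_sum, Finset.sum_apply]
    rfl
  rw [e1]
  have h1 : ‖(f - g) x‖ ≤ ‖f - g‖ := ContinuousMap.norm_coe_le_norm _ _
  rw [dist_eq_norm] at hfg
  exact h1.trans hfg.le

lemma prod_le_one {ι : Type*} (s : Finset ι) (f : ι → ℂ) (h : ∀ i ∈ s, ‖f i‖ ≤ 1) :
    ‖∏ i ∈ s, f i‖ ≤ 1 := by
  rw [norm_prod]
  exact Finset.prod_le_one (fun i _ => norm_nonneg _) h

/-- products of weakly converging sequences converge weakly -/
lemma tensor (μ : Measure T) [IsProbabilityMeasure μ] (U : Ultrafilter ℕ) (b : Fin k → ℕ → ℤ)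
    (θ : Fin k → T → ℂ) (hθm : ∀ i, Measurable (θ i)) (hθ1 : ∀ i x, ‖θ i x‖ ≤ 1)
    (hlim : ∀ i (n : ℤ), Tendsto (fun m => ∫ x, e (b i m) x * e n x ∂μ) U
      (𝓝 (∫ x, θ i x * e n x ∂μ)))
    (H : (Fin k → T) → ℂ) (hH : Integrable H (Measure.pi fun _ => μ)) :
    Tendsto (fun m => ∫ x, (∏ i, e (b i m) (x i)) * H x ∂(Measure.pi fun _ => μ)) U
      (𝓝 (∫ x, (∏ i, θ i (x i)) * H x ∂(Measure.pi fun _ => μ))) := by
  classical
  set P := Measure.pi (fun _ : Fin k => μ) with hP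
  -- the two kinds of products
  have hFm : ∀ m, Measurable (fun x : Fin k → T => ∏ i, e (b i m) (x i)) := fun m =>
    Finset.measurable_prod _ fun i _ => (e_meas _).comp (measurable_pi_apply i)
  have hF1 : ∀ m (x : Fin k → T), ‖∏ i, e (b i m) (x i)‖ ≤ 1 := fun m x =>
    prod_le_one _ _ fun i _ => (e_norm _ _).le
  have hGm : Measurable (fun x : Fin k → T => ∏ i, θ i (x i)) :=
    Finset.measurable_prod _ fun i _ => (hθm i).comp (measurable_pi_apply i)
  have hG1 : ∀ (x : Fin k → T), ‖∏ i, θ i (x i)‖ ≤ 1 := fun x =>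
    prod_le_one _ _ fun i _ => hθ1 i _
  -- characters
  have hchar : ∀ n : Fin k → ℤ, Tendsto (fun m => ∫ x, (∏ i, e (b i m) (x i)) * ∏ i, e (n i) (x i) ∂P) U
      (𝓝 (∫ x, (∏ i, θ i (x i)) * ∏ i, e (n i) (x i) ∂P)) := by
    intro n
    have h1 : ∀ m, ∫ x, (∏ i, e (b i m) (x i)) * ∏ i, e (n i) (x i) ∂P =
        ∏ i, ∫ y, e (b i m) y * e (n i) y ∂μ := by
      intro m
      simp_rw [← Finset.prod_mul_distrib]
      exact integral_fintype_prod_eq_prod (𝕜 := ℂ) (fun i (y : T) => e (b i m) y * e (n i) y)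
    have h2 : ∫ x, (∏ i, θ i (x i)) * ∏ i, e (n i) (x i) ∂P =
        ∏ i, ∫ y, θ i y * e (n i) y ∂μ := by
      simp_rw [← Finset.prod_mul_distrib]
      exact integral_fintype_prod_eq_prod (𝕜 := ℂ) (fun i (y : T) => θ i y * e (n i) y)
    simp_rw [h1, h2]
    exact tendsto_finsetProd _ fun i _ => hlim i (n i)
  -- trigonometric polynomials
  have hpoly : ∀ (M : Finset (Fin k → ℤ)) (c : (Fin k → ℤ) → ℂ),
      Tendsto (fun m => ∫ x, (∏ i, e (b i m) (x i)) * ∑ n ∈ M, c n * ∏ i, e (n i) (x i) ∂P) U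
      (𝓝 (∫ x, (∏ i, θ i (x i)) * ∑ n ∈ M, c n * ∏ i, e (n i) (x i) ∂P)) := by
    intro M c
    have h1 : ∀ (F : (Fin k → T) → ℂ), Measurable F → (∀ x, ‖F x‖ ≤ 1) →
        ∫ x, F x * ∑ n ∈ M, c n * ∏ i, e (n i) (x i) ∂P =
          ∑ n ∈ M, c n * ∫ x, F x * ∏ i, e (n i) (x i) ∂P := by
      intro F hF hF1
      have h2 : ∀ n : Fin k → ℤ, Integrable (fun x => F x * ∏ i, e (n i) (x i)) P := by
        intro n
        refine int_bdd (hF.mul (Finset.measurable_prod _ fun i _ =>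
          (e_meas _).comp (measurable_pi_apply i))) (C := 1) fun x => ?_
        rw [norm_mul]
        exact mul_le_one₀ (hF1 x) (norm_nonneg _) (prod_le_one _ _ fun i _ => (e_norm _ _).le)
      simp_rw [Finset.mul_sum]
      rw [integral_finsetSum]
      · refine Finset.sum_congr rfl fun n _ => ?_
        rw [← integral_const_mul]
        congr 1
        ext x
        ring
      · intro n _
        have := (h2 n).const_mul (c n)
        refine this.congr (Eventually.of_forall fun x => ?_)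
        simp only
        ring
    simp_rw [h1 _ (hFm _) (hF1 _), h1 _ hGm hG1]
    exact tendsto_finsetSum _ fun n _ => (hchar n).const_mul _
  -- approximation
  rw [Metric.tendsto_nhds]
  intro ε hε
  obtain ⟨g, hg1, hg2⟩ := hH.exists_boundedContinuous_integral_sub_le (ε := ε / 8) (by positivity)
  obtain ⟨M, c, hc⟩ := trig (k := k) ⟨g, g.continuous⟩ (ε := ε / 8) (by positivity)
  set Q : (Fin k → T) → ℂ := fun x => ∑ n ∈ M, c n * ∏ i, e (n i) (x i) with hQ
  have hQm : Measurable Q := by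
    refine Finset.measurable_sum _ fun n _ => Measurable.const_mul ?_ _
    exact Finset.measurable_prod _ fun i _ => (e_meas _).comp (measurable_pi_apply i)
  have hQi : Integrable Q P := by
    refine int_bdd hQm (C := ∑ n ∈ M, ‖c n‖) fun x => ?_
    refine (norm_sum_le _ _).trans (Finset.sum_le_sum fun n _ => ?_)
    rw [norm_mul]
    exact mul_le_of_le_one_right (norm_nonneg _) (prod_le_one _ _ fun i _ => (e_norm _ _).le)
  have hdist : ∫ x, ‖H x - Q x‖ ∂P ≤ ε / 4 := by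
    have h1 : ∀ x, ‖H x - Q x‖ ≤ ‖H x - g x‖ + ε / 8 := by
      intro x
      have h2 := hc x
      have h3 : H x - Q x = (H x - g x) + (g x - Q x) := by ring
      rw [h3]
      exact (norm_add_le _ _).trans (add_le_add le_rfl h2)
    have hi1 : Integrable (fun x => ‖H x - g x‖) P := (hH.sub hg2).norm
    calc ∫ x, ‖H x - Q x‖ ∂P ≤ ∫ x, (‖H x - g x‖ + ε / 8) ∂P :=
          integral_mono (hH.sub hQi).norm (hi1.add (integrable_const _)) h1
      _ = ∫ x, ‖H x - g x‖ ∂P + ε / 8 := by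
          rw [integral_add hi1 (integrable_const _)]
          simp
      _ ≤ ε / 4 := by linarith
  have hcomp : ∀ (F : (Fin k → T) → ℂ), Measurable F → (∀ x, ‖F x‖ ≤ 1) →
      ‖∫ x, F x * H x ∂P - ∫ x, F x * Q x ∂P‖ ≤ ε / 4 := by
    intro F hF hF1
    have hi : ∀ G : (Fin k → T) → ℂ, Integrable G P → Integrable (fun x => F x * G x) P :=
      fun G hG => hG.bdd_mul hF.aestronglyMeasurable (Eventually.of_forall hF1)
    rw [← integral_sub (hi _ hH) (hi _ hQi)]
    refine (norm_integral_le_integral_norm _).trans (le_trans ?_ hdist)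
    refine integral_mono ((hi _ hH).sub (hi _ hQi)).norm (hH.sub hQi).norm fun x => ?_
    simp only
    rw [← mul_sub, norm_mul]
    exact mul_le_of_le_one_left (norm_nonneg _) (hF1 x)
  have h5 := (Metric.tendsto_nhds.1 (hpoly M c)) (ε / 4) (by positivity)
  filter_upwards [h5] with m hm
  rw [dist_eq_norm] at hm ⊢
  have h6 := hcomp _ (hFm m) (hF1 m)
  have h7 := hcomp _ hGm hG1
  have h8 : ∫ x, (∏ i, e (b i m) (x i)) * H x ∂P - ∫ x, (∏ i, θ i (x i)) * H x ∂P =
      (∫ x, (∏ i, e (b i m) (x i)) * H x ∂P - ∫ x, (∏ i, e (b i m) (x i)) * Q x ∂P) +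
      (∫ x, (∏ i, e (b i m) (x i)) * Q x ∂P - ∫ x, (∏ i, θ i (x i)) * Q x ∂P) -
      (∫ x, (∏ i, θ i (x i)) * H x ∂P - ∫ x, (∏ i, θ i (x i)) * Q x ∂P) := by ring
  rw [h8]
  refine (norm_sub_le _ _).trans_lt ?_
  have h9 := norm_add_le (∫ x, (∏ i, e (b i m) (x i)) * H x ∂P - ∫ x, (∏ i, e (b i m) (x i)) * Q x ∂P)
    (∫ x, (∏ i, e (b i m) (x i)) * Q x ∂P - ∫ x, (∏ i, θ i (x i)) * Q x ∂P)
  linarith

end Q123.CV
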